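import Pool.Agent.UBD.Stmts

set_option autoImplicit false

/-!
# UBD: module FUL
-/

open scoped BigOperators

namespace Pool.Agent.UBD

open Pool.Agent.HGP (Ix Simil)

noncomputable section

namespace FUL_

theorem nv_sq {k : ℕ} (v : Ix k → ℂ) : nv v * nv v = 0 := by
  have h1 : dotProduct ((Matrix.J (Fin k) ℂ).mulVec v) v = 0 := by
    have h2 : dotProduct ((Matrix.J (Fin k) ℂ).mulVec v) v =
        - dotProduct ((Matrix.J (Fin k) ℂ).mulVec v) v := by
      conv_lhs => rw [dotProduct_comm, Matrix.dotProduct_mulVec, ← Matrix.mulVec_transpose,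
        Matrix.J_transpose, Matrix.neg_mulVec, neg_dotProduct]
    have h3 := add_eq_zero_iff_eq_neg.2 h2
    have h4 : (2 : ℂ) * dotProduct ((Matrix.J (Fin k) ℂ).mulVec v) v = 0 := by
      rw [two_mul]; exact h3
    rcases mul_eq_zero.1 h4 with h | h
    · norm_num at h
    · exact h
  unfold nv
  rw [Matrix.vecMulVec_mul_vecMulVec, h1, zero_smul]
  simp [Matrix.vecMulVec_zero]

theorem exp_sq {k : ℕ} (N : Matrix (Ix k) (Ix k) ℂ) (h : N * N = 0) (t : ℂ) :
    NormedSpace.exp (t • N) = 1 + t • N := by
  have h2 : ∀ n : ℕ, n ∉ Finset.range 2 → ((n.factorial : ℂ)⁻¹) • (t • N) ^ n = 0 := by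
    intro n hn
    have hn2 : 2 ≤ n := by
      rw [Finset.mem_range] at hn
      omega
    obtain ⟨m, rfl⟩ := Nat.exists_eq_add_of_le hn2
    rw [pow_add, pow_two, Matrix.smul_mul, Matrix.mul_smul, h]
    simp
  rw [NormedSpace.exp_eq_tsum (𝕂 := ℂ)]
  simp only
  rw [tsum_eq_sum h2, Finset.sum_range_succ, Finset.sum_range_one]
  simp

end FUL_

theorem ful_proof (hSPG : Stmt_SPG) : Stmt_FUL := by
  intro r g w H hH T hT a ha1 ha2 ha3
  -- one transvection
  have h1 : ∀ i ∈ T, ∀ (v : Ix (g i) → ℂ) (c : ℂ),
      ((1, Function.update 1 i (1 + c • nv v)) : Pt g) ∈ H := by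
    intro i hi v c
    have h := hT i hi v c
    have e : ex c (sg1 i (nv v)) = ((1, Function.update 1 i (1 + c • nv v)) : Pt g) := by
      unfold ex sg1
      refine Prod.ext ?_ ?_
      · simp
      · funext j
        by_cases hj : j = i
        · subst hj
          simp only [Pi.single_eq_same, Function.update_self]
          exact FUL_.exp_sq _ (FUL_.nv_sq v) c
        · simp only [Pi.single_eq_of_ne hj, Function.update_of_ne hj, smul_zero, Pi.one_apply]
          exact NormedSpace.exp_zero
    rwa [e] at h
  -- one factor
  have h2 : ∀ i ∈ T, ∀ M : Matrix (Ix (g i)) (Ix (g i)) ℂ, Simil 1 M →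
      ((1, Function.update 1 i M) : Pt g) ∈ H := by
    intro i hi M hM
    have hmem := hSPG (g i) M hM
    clear hM
    induction hmem using Submonoid.closure_induction with
    | mem x hx =>
      obtain ⟨v, c, rfl⟩ := hx
      exact h1 i hi v c
    | one =>
      rw [Function.update_eq_self_iff.2 (by simp)]
      exact hH.one
    | mul x y _ _ hx hy =>
      have h := hH.mul _ hx _ hy
      have e : ((1, Function.update 1 i x) : Pt g) * ((1, Function.update 1 i y) : Pt g) =
          ((1, Function.update 1 i (x * y)) : Pt g) := by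
        refine Prod.ext ?_ ?_
        · simp
        · funext j
          by_cases hj : j = i
          · subst hj
            simp
          · simp [Function.update_of_ne hj]
      rwa [e] at h
  -- products
  have h3 : ∀ s : Finset (Fin r),
      ((1, fun i => if i ∈ s then a.2 i else 1) : Pt g) ∈ H := by
    intro s
    induction s using Finset.induction_on with
    | empty =>
      have e : ((1, fun i => if i ∈ (∅ : Finset (Fin r)) then a.2 i else 1) : Pt g) = 1 := by
        refine Prod.ext rfl ?_
        funext i
        simp
      rw [e]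
      exact hH.one
    | insert j s hj hs =>
      have h4 : ((1, Function.update 1 j (a.2 j)) : Pt g) ∈ H := by
        by_cases hjT : j ∈ T
        · exact h2 j hjT _ (ha2 j)
        · rw [ha3 j hjT, Function.update_eq_self_iff.2 (by simp)]
          exact hH.one
      have h := hH.mul _ hs _ h4
      have e : ((1, fun i => if i ∈ s then a.2 i else 1) : Pt g) *
          ((1, Function.update 1 j (a.2 j)) : Pt g) =
          ((1, fun i => if i ∈ insert j s then a.2 i else 1) : Pt g) := by
        refine Prod.ext ?_ ?_
        · simp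
        · funext i
          by_cases hi : i = j
          · subst hi
            simp [hj]
          · simp [hi]
      rwa [e] at h
  have h5 := h3 Finset.univ
  have e : ((1, fun i => if i ∈ (Finset.univ : Finset (Fin r)) then a.2 i else 1) : Pt g) = a := by
    refine Prod.ext ha1.symm ?_
    funext i
    simp
  rwa [e] at h5

end

end Pool.Agent.UBD
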