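import Pool.Agent.UBD.Stmts

set_option autoImplicit false

/-!
# UBD, module LIEA: the Lie algebra of a closed subgroup is a complex subspace
-/

open scoped BigOperators

namespace Pool.Agent.UBD

open Pool.Agent.HGP (Ix Simil)

noncomputable section

namespace LIEA_

variable {r : ℕ} {g : Fin r → ℕ}

/-- The coordinates of `a * X` as polynomials in the coordinates of `a`. -/
def lin (X : Pt g) : Crd g → Pol g := fun o => o.elim
  (MvPolynomial.C X.1 * MvPolynomial.X none)
  (fun p => ∑ l, MvPolynomial.C (X.2 p.1 l p.2.2) * MvPolynomial.X (some ⟨p.1, p.2.1, l⟩))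

/-- The derivation `D_X`. -/
def DD (X : Pt g) : Derivation ℂ (Pol g) (Pol g) := MvPolynomial.mkDerivation ℂ (lin X)

lemma ev_lin (X a : Pt g) (o : Crd g) : ev (lin X o) a = HGP.tpt (a * X).1 (a * X).2 o := by
  rcases o with _ | ⟨i, j, k⟩
  · simp [lin, ev, HGP.tpt, mul_comm]
  · simp only [lin, ev, HGP.tpt, Option.elim, map_sum, map_mul, MvPolynomial.eval_C,
      MvPolynomial.eval_X, Prod.snd_mul, Pi.mul_apply, Matrix.mul_apply]
    exact Finset.sum_congr rfl fun l _ => mul_comm _ _

lemma ev_C (z : ℂ) (a : Pt g) : ev (MvPolynomial.C z : Pol g) a = z := by simp [ev]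

lemma ev_add (P Q : Pol g) (a : Pt g) : ev (P + Q) a = ev P a + ev Q a := by simp [ev]

lemma ev_mul (P Q : Pol g) (a : Pt g) : ev (P * Q) a = ev P a * ev Q a := by simp [ev]

lemma ev_X (o : Crd g) (a : Pt g) : ev (MvPolynomial.X o : Pol g) a = HGP.tpt a.1 a.2 o := by
  simp [ev]

/-- The chain rule. -/
lemma chain (X : Pt g) (φ : ℂ → Pt g)
    (hφ : ∀ t o, HasDerivAt (fun t => HGP.tpt (φ t).1 (φ t).2 o)
      (HGP.tpt (φ t * X).1 (φ t * X).2 o) t) (P : Pol g) (t : ℂ) :
    HasDerivAt (fun t => ev P (φ t)) (ev (DD X P) (φ t)) t := by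
  induction P using MvPolynomial.induction_on with
  | C z =>
    have h1 : (fun t => ev (MvPolynomial.C z : Pol g) (φ t)) = fun _ => z := by
      funext t; exact ev_C z _
    have h2 : DD X (MvPolynomial.C z) = 0 := by
      exact MvPolynomial.derivation_C _ _
    rw [h1, h2]
    have h3 : ev (0 : Pol g) (φ t) = 0 := by simp [ev]
    rw [h3]
    exact hasDerivAt_const t z
  | add P Q hP hQ =>
    have h1 : (fun t => ev (P + Q) (φ t)) = fun t => ev P (φ t) + ev Q (φ t) := by
      funext t; exact ev_add _ _ _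
    rw [h1, map_add, ev_add]
    exact hP.add hQ
  | mul_X P o hP =>
    have h1 : (fun t => ev (P * MvPolynomial.X o) (φ t)) =
        fun t => ev P (φ t) * HGP.tpt (φ t).1 (φ t).2 o := by
      funext t; rw [ev_mul, ev_X]
    have h2 : ev (DD X (P * MvPolynomial.X o)) (φ t) =
        ev (DD X P) (φ t) * HGP.tpt (φ t).1 (φ t).2 o +
          ev P (φ t) * HGP.tpt (φ t * X).1 (φ t * X).2 o := by
      rw [Derivation.leibniz, smul_eq_mul, smul_eq_mul, ev_add, ev_mul, ev_mul, ev_X, DD,
        MvPolynomial.mkDerivation_X, ev_lin]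
      ring
    rw [h1, h2]
    exact hP.mul (hφ t o)

open scoped Matrix.Norms.Operator in
set_option backward.isDefEq.respectTransparency false in
lemma exp_entry {k : ℕ} (M : Matrix (Ix k) (Ix k) ℂ) (i j : Ix k) (t : ℂ) :
    HasDerivAt (fun t : ℂ => NormedSpace.exp (t • M) i j)
      ((NormedSpace.exp (t • M) * M) i j) t := by
  have h := hasDerivAt_exp_smul_const (𝕂 := ℂ) M t
  exact ((Matrix.entryLinearMap ℂ ℂ i j).toContinuousLinearMap.hasFDerivAt.comp_hasDerivAt t h)

lemma curve (h X : Pt g) (t : ℂ) (o : Crd g) :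
    HasDerivAt (fun t => HGP.tpt (h * ex t X).1 (h * ex t X).2 o)
      (HGP.tpt (h * ex t X * X).1 (h * ex t X * X).2 o) t := by
  rcases o with _ | ⟨i, j, k⟩
  · simp only [HGP.tpt, Option.elim, Prod.fst_mul, ex]
    have h1 : HasDerivAt (fun t : ℂ => Complex.exp (t * X.1)) (Complex.exp (t * X.1) * X.1) t := by
      have h2 : HasDerivAt (fun t : ℂ => t * X.1) (1 * X.1) t := (hasDerivAt_id t).mul_const X.1
      rw [one_mul] at h2
      exact h2.cexp
    rw [mul_assoc]
    exact h1.const_mul h.1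
  · simp only [HGP.tpt, Option.elim, Prod.snd_mul, Pi.mul_apply, ex]
    rw [mul_assoc]
    simp only [Matrix.mul_apply (M := h.2 i)]
    exact HasDerivAt.fun_sum fun l _ => (exp_entry (X.2 i) l k t).const_mul (h.2 i j l)

lemma ex_zero (X : Pt g) : ex 0 X = 1 := by
  ext1
  · simp [ex]
  · funext i
    simp [ex]

/-- The equations of `G`. -/
def eqn (w : Fin r → ℕ) (i : Fin r) (j k : Ix (g i)) : Pol g :=
  (∑ a, (∑ b, MvPolynomial.X (some ⟨i, b, j⟩) * MvPolynomial.C (Matrix.J (Fin (g i)) ℂ b a)) *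
    MvPolynomial.X (some ⟨i, a, k⟩)) -
    MvPolynomial.X none ^ w i * MvPolynomial.C (Matrix.J (Fin (g i)) ℂ j k)

lemma ev_eqn (w : Fin r → ℕ) (i : Fin r) (j k : Ix (g i)) (a : Pt g) :
    ev (eqn w i j k) a = ((a.2 i).transpose * Matrix.J (Fin (g i)) ℂ * a.2 i) j k -
      (a.1 ^ w i • Matrix.J (Fin (g i)) ℂ) j k := by
  simp only [eqn, ev, map_sub, map_sum, map_mul, map_pow, MvPolynomial.eval_C,
    MvPolynomial.eval_X, HGP.tpt, Option.elim, Matrix.mul_apply, Matrix.transpose_apply,
    Matrix.smul_apply, smul_eq_mul]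

lemma inG_of {w : Fin r → ℕ} {a : Pt g} (h1 : a.1 ≠ 0) (h2 : ∀ i j k, ev (eqn w i j k) a = 0) :
    InG w a := by
  refine ⟨h1, fun i => ?_⟩
  unfold Simil
  ext j k
  have h := h2 i j k
  rw [ev_eqn, sub_eq_zero] at h
  exact h

lemma eqn_of {w : Fin r → ℕ} {a : Pt g} (h : InG w a) (i : Fin r) (j k : Ix (g i)) :
    ev (eqn w i j k) a = 0 := by
  rw [ev_eqn, sub_eq_zero]
  have h1 := h.2 i
  unfold Simil at h1
  rw [h1]

/-- A direction whose derivation preserves the ideal is in the Lie algebra. -/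
lemma of_deriv {w : Fin r → ℕ} {H : Set (Pt g)} (hH : GrpS w H) (Z : Pt g)
    (hZ : ∀ P : Pol g, (∀ h ∈ H, ev P h = 0) → ∀ h ∈ H, ev (DD Z P) h = 0) : Z ∈ Lie H := by
  have hall : ∀ n : ℕ, ∀ P : Pol g, (∀ h ∈ H, ev P h = 0) →
      ∀ h ∈ H, ev ((fun Q => DD Z Q)^[n] P) h = 0 := by
    intro n
    induction n with
    | zero => intro P hP; exact hP
    | succ n ih =>
      intro P hP
      rw [Function.iterate_succ_apply]
      exact ih _ (hZ P hP)
  have hc := fun (P : Pol g) (t : ℂ) => chain Z (fun t => 1 * ex t Z) (curve 1 Z) P t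
  have hit : ∀ n : ℕ, ∀ P : Pol g, iteratedDeriv n (fun t => ev P (1 * ex t Z)) =
      fun t => ev ((fun Q => DD Z Q)^[n] P) (1 * ex t Z) := by
    intro n
    induction n with
    | zero => intro P; rw [iteratedDeriv_zero]; rfl
    | succ n ih =>
      intro P
      rw [iteratedDeriv_succ', Function.iterate_succ_apply]
      have h1 : deriv (fun t => ev P (1 * ex t Z)) = fun t => ev (DD Z P) (1 * ex t Z) := by
        funext t
        exact (hc P t).deriv
      rw [h1]
      exact ih _
  have hzero : ∀ P : Pol g, (∀ h ∈ H, ev P h = 0) → ∀ t, ev P (ex t Z) = 0 := by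
    intro P hP t
    have hd : Differentiable ℂ (fun t => ev P (1 * ex t Z)) := fun t => (hc P t).differentiableAt
    have hs := Complex.hasSum_taylorSeries_of_entire hd 0 t
    have h0 : (fun n : ℕ => ((n.factorial : ℂ))⁻¹ • (t - 0) ^ n •
        iteratedDeriv n (fun t => ev P (1 * ex t Z)) 0) = fun _ => 0 := by
      funext n
      rw [hit]
      simp only
      rw [ex_zero, mul_one, hall n P hP 1 hH.one, smul_zero, smul_zero]
    rw [h0] at hs
    have h2 := hs.unique hasSum_zero
    simpa using h2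
  intro t
  have hin : InG w (ex t Z) := inG_of (Complex.exp_ne_zero _) fun i j k =>
    hzero _ (fun h hh => eqn_of (hH.sub h hh) i j k) t
  exact hH.closed _ hin fun P hP => hzero P hP t

lemma deriv_of {w : Fin r → ℕ} {H : Set (Pt g)} (hH : GrpS w H) (X : Pt g) (hX : X ∈ Lie H)
    (P : Pol g) (hP : ∀ h ∈ H, ev P h = 0) : ∀ h ∈ H, ev (DD X P) h = 0 := by
  intro h hh
  have hc := chain X (fun t => h * ex t X) (curve h X) P 0
  have h1 : (fun t => ev P (h * ex t X)) = fun _ => 0 := by
    funext t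
    exact hP _ (hH.mul h hh _ (hX t))
  rw [h1, ex_zero, mul_one] at hc
  exact (hc.unique (hasDerivAt_const 0 0))

lemma lin_add (X Y : Pt g) (c : ℂ) (o : Crd g) :
    lin (X + c • Y) o = lin X o + MvPolynomial.C c * lin Y o := by
  rcases o with _ | ⟨i, j, k⟩
  · simp only [lin, Option.elim, Prod.fst_add, Prod.smul_fst, smul_eq_mul, map_add, map_mul]
    ring
  · simp only [lin, Option.elim, Prod.snd_add, Prod.smul_snd, Pi.add_apply, Pi.smul_apply,
      Matrix.add_apply, Matrix.smul_apply, smul_eq_mul, map_add, map_mul, Finset.mul_sum]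
    rw [← Finset.sum_add_distrib]
    exact Finset.sum_congr rfl fun l _ => by ring

lemma DD_add (X Y : Pt g) (c : ℂ) (P : Pol g) :
    DD (X + c • Y) P = DD X P + MvPolynomial.C c * DD Y P := by
  have h : DD (X + c • Y) = DD X + c • DD Y := by
    apply MvPolynomial.derivation_ext
    intro o
    simp only [DD, Derivation.add_apply, Derivation.smul_apply, MvPolynomial.mkDerivation_X]
    rw [lin_add, MvPolynomial.smul_eq_C_mul]
  rw [h, Derivation.add_apply, Derivation.smul_apply, MvPolynomial.smul_eq_C_mul]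

end LIEA_

open LIEA_ in
theorem liea_proof : Stmt_LIEA := by
  intro r g w H hH X hX Y hY c
  refine of_deriv hH _ fun P hP h hh => ?_
  rw [DD_add, ev_add, ev_mul, deriv_of hH X hX P hP h hh, deriv_of hH Y hY P hP h hh, mul_zero,
    add_zero]

end

end Pool.Agent.UBD
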