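import Pool.Agent.UBD.Stmts

set_option autoImplicit false

/-!
# UBD, module TRL: stable subspaces contain the directions of the transvections
-/

open scoped BigOperators

namespace Pool.Agent.UBD

open Pool.Agent.HGP (Ix Simil)

namespace TRL_

open Matrix

noncomputable section

/-- `J u` is orthogonal to `u`. -/
theorem J_dot_self {k : ℕ} (u : Ix k → ℂ) : (Matrix.J (Fin k) ℂ).mulVec u ⬝ᵥ u = 0 := by
  have h1 : (Matrix.J (Fin k) ℂ).mulVec u ⬝ᵥ u = u ⬝ᵥ (Matrix.J (Fin k) ℂ).mulVec u :=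
    dotProduct_comm _ _
  have h2 : u ⬝ᵥ (Matrix.J (Fin k) ℂ).mulVec u = -((Matrix.J (Fin k) ℂ).mulVec u ⬝ᵥ u) := by
    rw [Matrix.dotProduct_mulVec, ← Matrix.mulVec_transpose, Matrix.J_transpose,
      Matrix.neg_mulVec, neg_dotProduct]
  have h3 := h1.trans h2
  have h4 : (2 : ℂ) * ((Matrix.J (Fin k) ℂ).mulVec u ⬝ᵥ u) = 0 := by linear_combination h3
  simpa using h4

/-- `J u · v = - (J v · u)`. -/
theorem J_dot_comm {k : ℕ} (u v : Ix k → ℂ) :
    (Matrix.J (Fin k) ℂ).mulVec u ⬝ᵥ v = -((Matrix.J (Fin k) ℂ).mulVec v ⬝ᵥ u) := by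
  rw [dotProduct_comm, Matrix.dotProduct_mulVec, ← Matrix.mulVec_transpose, Matrix.J_transpose,
      Matrix.neg_mulVec, neg_dotProduct]

theorem nv_mul_mul {k : ℕ} (u : Ix k → ℂ) (X : Matrix (Ix k) (Ix k) ℂ) :
    nv u * X * nv u = ((Matrix.J (Fin k) ℂ).mulVec u ⬝ᵥ X.mulVec u) • nv u := by
  unfold nv
  rw [Matrix.vecMulVec_mul, Matrix.vecMulVec_mul_vecMulVec, ← Matrix.dotProduct_mulVec]
  ext i j
  simp [Matrix.vecMulVec_apply, Matrix.smul_apply]
  ring

theorem nv_sq {k : ℕ} (u : Ix k → ℂ) : nv u * nv u = 0 := by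
  have h := nv_mul_mul u (1 : Matrix (Ix k) (Ix k) ℂ)
  rw [Matrix.mul_one, Matrix.one_mulVec, J_dot_self, zero_smul] at h
  exact h

theorem nv_transpose_J {k : ℕ} (u : Ix k → ℂ) :
    (nv u).transpose * Matrix.J (Fin k) ℂ = -(Matrix.J (Fin k) ℂ * nv u) := by
  unfold nv
  rw [Matrix.transpose_vecMulVec, Matrix.vecMulVec_mul, Matrix.mul_vecMulVec,
    ← Matrix.mulVec_transpose, Matrix.J_transpose, Matrix.neg_mulVec, Matrix.vecMulVec_neg]

theorem simil_tv {k : ℕ} (u : Ix k → ℂ) (c : ℂ) : Simil 1 (1 + c • nv u) := by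
  unfold Simil
  rw [Matrix.transpose_add, Matrix.transpose_one, Matrix.transpose_smul, Matrix.add_mul,
    Matrix.one_mul, Matrix.smul_mul, nv_transpose_J, Matrix.mul_add, Matrix.mul_one,
    Matrix.add_mul, Matrix.smul_mul, Matrix.neg_mul, Matrix.mul_smul, Matrix.mul_smul,
    Matrix.mul_assoc, nv_sq]
  simp

theorem tv_mul {k : ℕ} (u : Ix k → ℂ) (c : ℂ) :
    (1 + c • nv u) * (1 + (-c) • nv u) = 1 := by
  rw [Matrix.add_mul, Matrix.one_mul, Matrix.mul_add, Matrix.mul_one, Matrix.smul_mul,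
    Matrix.mul_smul, nv_sq]
  simp

/-- The basic step. -/
theorem step {r : ℕ} {g w : Fin r → ℕ} {W : Set (Pt g)}
    (hW : ∀ X ∈ W, ∀ Y ∈ W, ∀ c : ℂ, X + c • Y ∈ W)
    (hA : ∀ X ∈ W, ∀ a b, InG w a → a * b = 1 → a * X * b ∈ W) {X : Pt g} (hX : X ∈ W)
    (i : Fin r) (u : Ix (g i) → ℂ)
    (hu : (Matrix.J (Fin (g i)) ℂ).mulVec u ⬝ᵥ (X.2 i).mulVec u ≠ 0) :
    sg1 i (nv u) ∈ W := by
  set s : ℂ := (Matrix.J (Fin (g i)) ℂ).mulVec u ⬝ᵥ (X.2 i).mulVec u with hs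
  have key : ∀ c : ℂ, ((1 : ℂ), Function.update (1 : ∀ j, Matrix (Ix (g j)) (Ix (g j)) ℂ) i
      (1 + c • nv u)) * X * ((1 : ℂ), Function.update
        (1 : ∀ j, Matrix (Ix (g j)) (Ix (g j)) ℂ) i (1 + (-c) • nv u)) ∈ W := by
    intro c
    refine hA X hX _ _ ⟨by simp, fun j => ?_⟩ ?_
    · dsimp only
      rw [one_pow]
      by_cases hj : j = i
      · subst hj
        rw [Function.update_self]
        exact simil_tv u c
      · rw [Function.update_of_ne hj]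
        simp [Simil]
    · refine Prod.ext (by simp) (funext fun j => ?_)
      by_cases hj : j = i
      · subst hj
        simp only [Prod.snd_mul, Pi.mul_apply, Function.update_self, Prod.snd_one, Pi.one_apply]
        exact tv_mul u c
      · simp [Function.update_of_ne hj]
  have k1 := hW _ (key 1) _ hX (-1)
  have k2 := hW _ (key (-1)) _ hX (-1)
  have k3 := hW _ k1 _ k2 1
  have h0 : X + (-1 : ℂ) • X ∈ W := hW _ hX _ hX (-1)
  have k4 := hW _ h0 _ k3 (-(1 / (2 * s)))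
  convert k4 using 1
  refine Prod.ext ?_ (funext fun j => ?_)
  · simp [sg1]
  · by_cases hj : j = i
    · subst hj
      have e1 : (1 + (1 : ℂ) • nv u) * X.2 j * (1 + (-1 : ℂ) • nv u) + (-1 : ℂ) • X.2 j +
          (1 : ℂ) • ((1 + (-1 : ℂ) • nv u) * X.2 j * (1 + (-(-1) : ℂ) • nv u) +
            (-1 : ℂ) • X.2 j) = (-2 : ℂ) • (nv u * X.2 j * nv u) := by
        simp only [one_smul, neg_smul, neg_neg, Matrix.add_mul, Matrix.mul_add, Matrix.one_mul,
          Matrix.mul_one, Matrix.mul_neg, Matrix.neg_mul, two_smul]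
        abel
      have e2 : nv u * X.2 j * nv u = s • nv u := nv_mul_mul u (X.2 j)
      simp only [sg1, Pi.single_eq_same, Prod.snd_add, Prod.smul_snd, Pi.add_apply,
        Pi.smul_apply, Prod.snd_mul, Pi.mul_apply, Function.update_self]
      rw [e1, e2, smul_smul, smul_smul, neg_one_smul, add_neg_cancel, zero_add]
      have : -(1 / (2 * s)) * -2 * s = 1 := by field_simp
      rw [this, one_smul]
    · simp [sg1, Pi.single_eq_of_ne hj, Function.update_of_ne hj]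

/-- A nonzero vector is moved off itself by `J`. -/
theorem exists_dot {k : ℕ} {u : Ix k → ℂ} (hu : u ≠ 0) :
    ∃ p : Ix k → ℂ, (Matrix.J (Fin k) ℂ).mulVec u ⬝ᵥ p ≠ 0 := by
  by_contra hcon
  push Not at hcon
  have h1 : (Matrix.J (Fin k) ℂ).mulVec u = 0 := by
    funext i
    have := hcon (Pi.single i 1)
    simpa using this
  apply hu
  have h2 : (Matrix.J (Fin k) ℂ * Matrix.J (Fin k) ℂ).mulVec u = 0 := by
    rw [← Matrix.mulVec_mulVec, h1, Matrix.mulVec_zero]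
  rw [Matrix.J_squared, Matrix.neg_mulVec, Matrix.one_mulVec] at h2
  simpa using h2

/-- A nonzero Hamiltonian matrix has a nonzero value. -/
theorem exists_value {k : ℕ} {X : Matrix (Ix k) (Ix k) ℂ}
    (hX : X.transpose * Matrix.J (Fin k) ℂ + Matrix.J (Fin k) ℂ * X = 0) (h0 : X ≠ 0) :
    ∃ u : Ix k → ℂ, (Matrix.J (Fin k) ℂ).mulVec u ⬝ᵥ X.mulVec u ≠ 0 := by
  by_contra hcon
  push Not at hcon
  have hsym : ∀ u v : Ix k → ℂ, (Matrix.J (Fin k) ℂ).mulVec u ⬝ᵥ X.mulVec v =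
      (Matrix.J (Fin k) ℂ).mulVec v ⬝ᵥ X.mulVec u := by
    intro u v
    have h1 : X.transpose * Matrix.J (Fin k) ℂ = -(Matrix.J (Fin k) ℂ * X) :=
      eq_neg_of_add_eq_zero_left hX
    have h2 : (Matrix.J (Fin k) ℂ).mulVec u ⬝ᵥ X.mulVec v =
        (X.transpose * Matrix.J (Fin k) ℂ).mulVec u ⬝ᵥ v := by
      rw [← Matrix.mulVec_mulVec, Matrix.mulVec_transpose, ← Matrix.dotProduct_mulVec]
    rw [h2, h1, Matrix.neg_mulVec, neg_dotProduct, ← Matrix.mulVec_mulVec, J_dot_comm, neg_neg]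
  have hz : ∀ u v : Ix k → ℂ, (Matrix.J (Fin k) ℂ).mulVec u ⬝ᵥ X.mulVec v = 0 := by
    intro u v
    have h1 := hcon (u + v)
    rw [Matrix.mulVec_add, Matrix.mulVec_add, add_dotProduct, dotProduct_add, dotProduct_add,
      hcon u, hcon v, hsym v u] at h1
    have h2 : (2 : ℂ) * ((Matrix.J (Fin k) ℂ).mulVec u ⬝ᵥ X.mulVec v) = 0 := by
      linear_combination h1
    simpa using h2
  apply h0
  ext i j
  have h1 : X.mulVec (Pi.single j 1) = 0 := by
    by_contra hne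
    obtain ⟨p, hp⟩ := exists_dot hne
    apply hp
    rw [J_dot_comm, hz, neg_zero]
  have h2 := congrFun h1 i
  simpa using h2

theorem nv_zero {k : ℕ} : nv (0 : Ix k → ℂ) = 0 := by
  unfold nv
  rw [Matrix.zero_vecMulVec]

end

end TRL_

theorem trl_proof : Stmt_TRL := by
  intro r g w W hW hA X hX hX1 hJ i hi v
  obtain ⟨u, hu⟩ := TRL_.exists_value (hJ i) hi
  have hU : sg1 i (nv u) ∈ W := TRL_.step hW hA hX i u hu
  have hu0 : u ≠ 0 := by
    rintro rfl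
    simp at hu
  have mv : ∀ {a b : Ix (g i) → ℂ}, sg1 i (nv a) ∈ W →
      (Matrix.J (Fin (g i)) ℂ).mulVec a ⬝ᵥ b ≠ 0 → sg1 i (nv b) ∈ W := by
    intro a b ha hab
    refine TRL_.step hW hA ha i b ?_
    have e : (sg1 (g := g) i (nv a)).2 i = nv a := by simp [sg1]
    rw [e]
    unfold nv
    rw [Matrix.vecMulVec_mulVec]
    rw [op_smul_eq_smul, dotProduct_smul, smul_eq_mul]
    refine mul_ne_zero hab ?_
    rw [TRL_.J_dot_comm]
    exact neg_ne_zero.mpr hab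
  by_cases hv : v = 0
  · subst hv
    rw [TRL_.nv_zero]
    have := hW _ hU _ hU (-1)
    have e : sg1 i (nv u) + (-1 : ℂ) • sg1 i (nv u) = (sg1 i 0 : Pt g) := by
      simp [sg1]
    rwa [e] at this
  obtain ⟨p, hp⟩ := TRL_.exists_dot hu0
  obtain ⟨q, hq⟩ := TRL_.exists_dot hv
  have fin : ∀ x : Ix (g i) → ℂ, (Matrix.J (Fin (g i)) ℂ).mulVec u ⬝ᵥ x ≠ 0 →
      (Matrix.J (Fin (g i)) ℂ).mulVec v ⬝ᵥ x ≠ 0 → sg1 i (nv v) ∈ W := by
    intro x h1 h2
    refine mv (mv hU h1) ?_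
    rw [TRL_.J_dot_comm]
    exact neg_ne_zero.mpr h2
  by_cases h1 : (Matrix.J (Fin (g i)) ℂ).mulVec v ⬝ᵥ p = 0
  · by_cases h2 : (Matrix.J (Fin (g i)) ℂ).mulVec u ⬝ᵥ q = 0
    · refine fin (p + q) ?_ ?_
      · rw [dotProduct_add, h2, add_zero]
        exact hp
      · rw [dotProduct_add, h1, zero_add]
        exact hq
    · exact fin q h2 hq
  · exact fin p hp h1

end Pool.Agent.UBD
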