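import Pool.Agent.UBD.Stmts

set_option autoImplicit false

/-!
# UBD: module ADG, the Lie algebra is stable under `G`
-/

open scoped BigOperators

namespace Pool.Agent.UBD

open Pool.Agent.HGP (Ix Simil)

noncomputable section

namespace ADG_

variable {r : ℕ} {g : Fin r → ℕ}

/-- `0` belongs to the Lie algebra. -/
theorem zero_mem (w : Fin r → ℕ) (H : Set (Pt g)) (hH : GrpS w H) : (0 : Pt g) ∈ Lie H := by
  intro t
  have h1 : ex t (0 : Pt g) = 1 := by
    unfold ex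
    refine Prod.ext ?_ ?_
    · simp
    · funext i
      simp [NormedSpace.exp_zero]
  rw [h1]
  exact hH.one

/-- The subspace of the elements of the Lie algebra with first component `0`. -/
def W (h1 : Stmt_LIEA) (w : Fin r → ℕ) (H : Set (Pt g)) (hH : GrpS w H) :
    Submodule ℂ (Pt g) where
  carrier := {X | X ∈ Lie H ∧ X.1 = 0}
  add_mem' := by
    rintro X Y ⟨hX, hX1⟩ ⟨hY, hY1⟩
    refine ⟨?_, ?_⟩
    · have := h1 r g w H hH X hX Y hY 1
      rw [one_smul] at this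
      exact this
    · rw [Prod.fst_add, hX1, hY1, add_zero]
  zero_mem' := ⟨zero_mem w H hH, rfl⟩
  smul_mem' := by
    rintro c X ⟨hX, hX1⟩
    refine ⟨?_, ?_⟩
    · have := h1 r g w H hH 0 (zero_mem w H hH) X hX c
      rw [zero_add] at this
      exact this
    · rw [Prod.smul_fst, hX1, smul_zero]

/-- The inclusion of a component. -/
def inc (i : Fin r) : Matrix (Ix (g i)) (Ix (g i)) ℂ →ₗ[ℂ] Pt g :=
  (LinearMap.inr ℂ ℂ (∀ i, Matrix (Ix (g i)) (Ix (g i)) ℂ)) ∘ₗ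
    (LinearMap.single ℂ (fun i => Matrix (Ix (g i)) (Ix (g i)) ℂ) i)

/-- A component of a linear form. -/
def lm (l : Pt g →ₗ[ℂ] ℂ) (i : Fin r) : Matrix (Ix (g i)) (Ix (g i)) ℂ →ₗ[ℂ] ℂ := l ∘ₗ inc i

theorem l_eq (l : Pt g →ₗ[ℂ] ℂ) (M : ∀ i, Matrix (Ix (g i)) (Ix (g i)) ℂ) :
    l (0, M) = ∑ i, lm l i (M i) := by
  have h1 : ((0, M) : Pt g) = ∑ i, inc i (M i) := by
    refine Prod.ext ?_ ?_
    · rw [Prod.fst_sum]
      symm
      exact Finset.sum_eq_zero fun i _ => rfl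
    · rw [Prod.snd_sum]
      have h2 : ∀ i, (inc i (M i) : Pt g).2 = Pi.single i (M i) := fun i => rfl
      rw [Finset.sum_congr rfl fun i _ => h2 i]
      exact (Finset.univ_sum_single M).symm
  rw [h1, map_sum]
  rfl

theorem lm_eq (l : Pt g →ₗ[ℂ] ℂ) (i : Fin r) (M : Matrix (Ix (g i)) (Ix (g i)) ℂ) :
    lm l i M = ∑ p, ∑ q, M p q * lm l i (Matrix.single p q 1) := by
  conv_lhs => rw [Matrix.matrix_eq_sum_single M]
  rw [map_sum]
  refine Finset.sum_congr rfl fun p _ => ?_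
  rw [map_sum]
  refine Finset.sum_congr rfl fun q _ => ?_
  have h1 : Matrix.single p q (M p q) = M p q • Matrix.single p q (1 : ℂ) := by
    rw [Matrix.smul_single, smul_eq_mul, mul_one]
  rw [h1, map_smul, smul_eq_mul]

/-- The coordinates as polynomials. -/
abbrev Y (i : Fin r) (p q : Ix (g i)) : Pol g := MvPolynomial.X (some ⟨i, (p, q)⟩)

/-- The polynomial. -/
def PP (w : Fin r → ℕ) (l : Pt g →ₗ[ℂ] ℂ) (X : Pt g) : Pol g :=
  ∑ i, MvPolynomial.X none ^ ((∑ j, w j) - w i) * ∑ p, ∑ q,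
    MvPolynomial.C (lm l i (Matrix.single p q 1)) * ∑ s, ∑ t, ∑ u,
      (Y i p s * MvPolynomial.C ((X.2 i * -Matrix.J (Fin (g i)) ℂ) s t)) *
        (Y i u t * MvPolynomial.C (Matrix.J (Fin (g i)) ℂ u q))

theorem deg_PP (w : Fin r → ℕ) (l : Pt g →ₗ[ℂ] ℂ) (X : Pt g) :
    (PP w l X).totalDegree ≤ 2 + ∑ i, w i := by
  unfold PP
  refine MvPolynomial.totalDegree_finsetSum_le fun i _ => ?_
  refine (MvPolynomial.totalDegree_mul _ _).trans ?_
  have h1 : ((MvPolynomial.X none : Pol g) ^ ((∑ j, w j) - w i)).totalDegree ≤ ∑ j, w j := by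
    rw [MvPolynomial.totalDegree_X_pow]
    exact Nat.sub_le _ _
  have h2 : (∑ p, ∑ q, MvPolynomial.C (lm l i (Matrix.single p q 1)) * ∑ s, ∑ t, ∑ u,
      (Y i p s * MvPolynomial.C ((X.2 i * -Matrix.J (Fin (g i)) ℂ) s t)) *
        (Y i u t * MvPolynomial.C (Matrix.J (Fin (g i)) ℂ u q)) : Pol g).totalDegree ≤ 2 := by
    refine MvPolynomial.totalDegree_finsetSum_le fun p _ => ?_
    refine MvPolynomial.totalDegree_finsetSum_le fun q _ => ?_
    refine (MvPolynomial.totalDegree_mul _ _).trans ?_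
    rw [MvPolynomial.totalDegree_C, zero_add]
    refine MvPolynomial.totalDegree_finsetSum_le fun s _ => ?_
    refine MvPolynomial.totalDegree_finsetSum_le fun t _ => ?_
    refine MvPolynomial.totalDegree_finsetSum_le fun u _ => ?_
    refine (MvPolynomial.totalDegree_mul _ _).trans ?_
    have h3 : ∀ (a b : Ix (g i)) (c : ℂ),
        (Y i a b * MvPolynomial.C c : Pol g).totalDegree ≤ 1 := by
      intro a b c
      refine (MvPolynomial.totalDegree_mul _ _).trans ?_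
      rw [MvPolynomial.totalDegree_C, MvPolynomial.totalDegree_X]
    exact (Nat.add_le_add (h3 p s _) (h3 u t _))
  omega

theorem ev_Y (c : Pt g) (i : Fin r) (p q : Ix (g i)) : ev (Y i p q) c = c.2 i p q := by
  unfold ev
  rw [MvPolynomial.eval_X]
  rfl

theorem ev_PP' (w : Fin r → ℕ) (l : Pt g →ₗ[ℂ] ℂ) (X c : Pt g) : ev (PP w l X) c =
    ∑ i, c.1 ^ ((∑ j, w j) - w i) *
      lm l i ((c.2 i * (X.2 i * -Matrix.J (Fin (g i)) ℂ)) *
        ((c.2 i).transpose * Matrix.J (Fin (g i)) ℂ)) := by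
  unfold PP ev
  rw [map_sum]
  refine Finset.sum_congr rfl fun i _ => ?_
  rw [map_mul, map_pow, MvPolynomial.eval_X, lm_eq]
  have h0 : HGP.tpt c.1 c.2 none = c.1 := rfl
  rw [h0]
  congr 1
  rw [map_sum]
  refine Finset.sum_congr rfl fun p _ => ?_
  rw [map_sum]
  refine Finset.sum_congr rfl fun q _ => ?_
  rw [map_mul, MvPolynomial.eval_C, mul_comm]
  congr 1
  have h1 : ((c.2 i * (X.2 i * -Matrix.J (Fin (g i)) ℂ)) *
      ((c.2 i).transpose * Matrix.J (Fin (g i)) ℂ)) p q =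
      ∑ s, ∑ t, ∑ u, (c.2 i p s * (X.2 i * -Matrix.J (Fin (g i)) ℂ) s t) *
        (c.2 i u t * Matrix.J (Fin (g i)) ℂ u q) := by
    rw [Matrix.mul_apply, Finset.sum_comm]
    refine Finset.sum_congr rfl fun t _ => ?_
    rw [Matrix.mul_apply, Matrix.mul_apply, Finset.sum_mul_sum]
    rfl
  rw [h1, map_sum]
  refine Finset.sum_congr rfl fun s _ => ?_
  rw [map_sum]
  refine Finset.sum_congr rfl fun t _ => ?_
  rw [map_sum]
  refine Finset.sum_congr rfl fun u _ => ?_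
  rw [map_mul, map_mul, map_mul, MvPolynomial.eval_C, MvPolynomial.eval_C, MvPolynomial.eval_X,
    MvPolynomial.eval_X]
  rfl

theorem ev_PP (w : Fin r → ℕ) (l : Pt g →ₗ[ℂ] ℂ) (X c d : Pt g) (hX : X.1 = 0)
    (hc : InG w c) (hcd : c * d = 1) : ev (PP w l X) c = c.1 ^ (∑ j, w j) * l (c * X * d) := by
  have h1 : c * X * d = (0, fun i => c.2 i * X.2 i * d.2 i) := by
    refine Prod.ext ?_ ?_
    · show c.1 * X.1 * d.1 = 0
      rw [hX, mul_zero, zero_mul]
    · rfl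
  rw [ev_PP', h1, l_eq, Finset.mul_sum]
  refine Finset.sum_congr rfl fun i _ => ?_
  have hJJ : Matrix.J (Fin (g i)) ℂ * Matrix.J (Fin (g i)) ℂ = -1 := Matrix.J_squared _ _
  have h2 : (c.2 i).transpose * Matrix.J (Fin (g i)) ℂ * c.2 i =
      (c.1 ^ w i) • Matrix.J (Fin (g i)) ℂ := hc.2 i
  have h3 : c.2 i * d.2 i = 1 := congrFun (congrArg Prod.snd hcd) i
  have h4 : (c.2 i).transpose * Matrix.J (Fin (g i)) ℂ =
      (c.1 ^ w i) • (Matrix.J (Fin (g i)) ℂ * d.2 i) := by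
    calc (c.2 i).transpose * Matrix.J (Fin (g i)) ℂ =
        (c.2 i).transpose * Matrix.J (Fin (g i)) ℂ * (c.2 i * d.2 i) := by rw [h3, Matrix.mul_one]
      _ = (c.2 i).transpose * Matrix.J (Fin (g i)) ℂ * c.2 i * d.2 i := by
          rw [Matrix.mul_assoc ((c.2 i).transpose * Matrix.J (Fin (g i)) ℂ)]
      _ = _ := by rw [h2, Matrix.smul_mul]
  have h5 : (c.2 i * (X.2 i * -Matrix.J (Fin (g i)) ℂ)) *
      ((c.2 i).transpose * Matrix.J (Fin (g i)) ℂ) = (c.1 ^ w i) • (c.2 i * X.2 i * d.2 i) := by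
    rw [h4, Matrix.mul_smul]
    congr 1
    calc c.2 i * (X.2 i * -Matrix.J (Fin (g i)) ℂ) * (Matrix.J (Fin (g i)) ℂ * d.2 i) =
        c.2 i * X.2 i * (-(Matrix.J (Fin (g i)) ℂ * Matrix.J (Fin (g i)) ℂ)) * d.2 i := by
          simp only [Matrix.mul_neg, Matrix.neg_mul, Matrix.mul_assoc]
      _ = _ := by rw [hJJ, neg_neg, Matrix.mul_one]
  rw [h5, map_smul, smul_eq_mul, ← mul_assoc, ← pow_add]
  congr 2
  have h6 : w i ≤ ∑ j, w j := Finset.single_le_sum (fun _ _ => Nat.zero_le _) (Finset.mem_univ i)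
  omega

end ADG_

/-- ADG: density in a bounded degree implies that the Lie algebra is stable under `G`. -/
theorem adg_proof (h1 : Stmt_LIEA) (h2 : Stmt_ADJ) : Stmt_ADG := by
  intro r g w H hH hD X hX hX1 a b ha hab
  by_contra hne
  have hY : a * X * b ∉ ADG_.W h1 w H hH := fun h => hne h.1
  obtain ⟨l, hl, hlW⟩ := Submodule.exists_dual_map_eq_bot_of_notMem hY inferInstance
  have hl0 : ∀ Z ∈ ADG_.W h1 w H hH, l Z = 0 := by
    intro Z hZ
    have h3 : l Z ∈ (ADG_.W h1 w H hH).map l := Submodule.mem_map_of_mem hZ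
    rw [hlW] at h3
    exact (Submodule.mem_bot ℂ).1 h3
  have hev : ∀ h ∈ H, ev (ADG_.PP w l X) h = 0 := by
    intro h hh
    obtain ⟨k, hk, hhk, hkh⟩ := hH.inv h hh
    rw [ADG_.ev_PP w l X h k hX1 (hH.sub h hh) hhk]
    have h4 := (h2 r g w H hH).1 X hX h hh k hhk hkh
    rw [hl0 _ ⟨h4, ?_⟩, mul_zero]
    show h.1 * X.1 * k.1 = 0
    rw [hX1, mul_zero, zero_mul]
  have h5 := hD _ (ADG_.deg_PP w l X) hev a ha
  rw [ADG_.ev_PP w l X a b hX1 ha hab] at h5
  rcases mul_eq_zero.1 h5 with h6 | h6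
  · exact pow_ne_zero _ ha.1 h6
  · exact hl h6

end

end Pool.Agent.UBD
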