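import Pool.Agent.UBD.Stmts

set_option autoImplicit false

/-!
# UBD, module ADJ: conjugation, derivatives at `0`
-/

open scoped BigOperators

namespace Pool.Agent.UBD

open Pool.Agent.HGP (Ix Simil)

noncomputable section

namespace ADJ_

attribute [local instance] Matrix.linftyOpNormedRing Matrix.linftyOpNormedAlgebra

variable {m : Type} [Fintype m] [DecidableEq m]

theorem deriv_exp (X : Matrix m m ℂ) :
    HasDerivAt (fun t : ℂ => NormedSpace.exp (t • X)) X 0 := by
  have h := hasDerivAt_exp_smul_const X (0 : ℂ)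
  rw [zero_smul, NormedSpace.exp_zero, one_mul] at h
  exact h

theorem deriv_cexp (x : ℂ) (w : ℕ) :
    HasDerivAt (fun t : ℂ => Complex.exp (t * x) ^ w) (w * x) 0 := by
  have h1 : HasDerivAt (fun t : ℂ => t * x) x 0 := by
    simpa using (hasDerivAt_id (0 : ℂ)).mul_const x
  refine ((h1.cexp).pow w).congr_deriv ?_
  simp

theorem simil_deriv (X J : Matrix m m ℂ) (x : ℂ) (w : ℕ)
    (h : ∀ t : ℂ, (NormedSpace.exp (t • X)).transpose * J * NormedSpace.exp (t • X) =
      (Complex.exp (t * x) ^ w) • J) :
    X.transpose * J + J * X = ((w : ℂ) * x) • J := by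
  have h1 : HasDerivAt (fun t : ℂ => NormedSpace.exp (t • X.transpose) * J *
      NormedSpace.exp (t • X)) (X.transpose * J + J * X) 0 := by
    refine (((deriv_exp X.transpose).mul_const J).mul (deriv_exp X)).congr_deriv ?_
    simp
  have h3 : HasDerivAt (fun t : ℂ => (Complex.exp (t * x) ^ w) • J) (((w : ℂ) * x) • J) 0 :=
    (deriv_cexp x w).smul_const J
  have h4 : (fun t : ℂ => NormedSpace.exp (t • X.transpose) * J *
      NormedSpace.exp (t • X)) = fun t : ℂ => (Complex.exp (t * x) ^ w) • J := by
    funext t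
    rw [← h t, ← Matrix.transpose_smul, Matrix.exp_transpose]
  rw [h4] at h1
  exact h1.unique h3

theorem comm_deriv (X a : Matrix m m ℂ)
    (h : ∀ t : ℂ, a * NormedSpace.exp (t • X) = NormedSpace.exp (t • X) * a) : a * X = X * a := by
  have h1 : HasDerivAt (fun t : ℂ => a * NormedSpace.exp (t • X)) (a * X) 0 :=
    (deriv_exp X).const_mul a
  have h2 : HasDerivAt (fun t : ℂ => NormedSpace.exp (t • X) * a) (X * a) 0 :=
    (deriv_exp X).mul_const a
  have h3 : (fun t : ℂ => a * NormedSpace.exp (t • X)) = fun t : ℂ => NormedSpace.exp (t • X) * a :=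
    funext h
  rw [h3] at h1
  exact h1.unique h2

theorem exp_conj' (a b X : Matrix m m ℂ) (hab : a * b = 1) (t : ℂ) :
    NormedSpace.exp (t • (a * X * b)) = a * NormedSpace.exp (t • X) * b := by
  have hb : b = a⁻¹ := (Matrix.inv_eq_right_inv hab).symm
  have ha : IsUnit a := by
    rw [Matrix.isUnit_iff_isUnit_det]
    exact Matrix.isUnit_det_of_right_inverse hab
  rw [hb, ← Matrix.exp_conj a (t • X) ha]
  congr 1
  rw [Matrix.mul_smul, Matrix.smul_mul]

end ADJ_

open ADJ_ in
theorem adj_proof : Stmt_ADJ := by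
  intro r g w H hH
  refine ⟨?_, ?_, ?_⟩
  · intro X hX a ha b hab hba t
    have hb : b ∈ H := by
      obtain ⟨b', hb', h1, h2⟩ := hH.inv a ha
      have : b = b' := by
        calc b = b * (a * b') := by rw [h1, mul_one]
          _ = b' := by rw [← mul_assoc, hba, one_mul]
      rw [this]
      exact hb'
    have h1 : ex t (a * X * b) = a * ex t X * b := by
      have e1 : a.1 * b.1 = 1 := congrArg Prod.fst hab
      have e2 : ∀ i, a.2 i * b.2 i = 1 := fun i => congrFun (congrArg Prod.snd hab) i
      refine Prod.ext ?_ ?_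
      · change Complex.exp (t * (a.1 * X.1 * b.1)) = a.1 * Complex.exp (t * X.1) * b.1
        have e3 : a.1 * X.1 * b.1 = X.1 := by linear_combination X.1 * e1
        rw [e3]
        linear_combination (-Complex.exp (t * X.1)) * e1
      · funext i
        exact exp_conj' (a.2 i) (b.2 i) (X.2 i) (e2 i) t
    rw [h1]
    exact hH.mul _ (hH.mul _ ha _ (hX t)) _ hb
  · intro X hX i
    refine simil_deriv (X.2 i) _ X.1 (w i) fun t => ?_
    exact (hH.sub _ (hX t)).2 i
  · intro X a h
    refine Prod.ext (mul_comm _ _) ?_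
    funext i
    refine comm_deriv (X.2 i) (a.2 i) fun t => ?_
    exact congrFun (congrArg Prod.snd (h t)) i

end

end Pool.Agent.UBD
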