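import Pool.Agent.UBD.Stmts

set_option autoImplicit false

/-!
# UBD.CLO: the end of the proof if all factors are full
-/

open scoped BigOperators

namespace Pool.Agent.UBD

open Pool.Agent.HGP (Ix Simil)

namespace CLO_

theorem simil_mul {k : ℕ} {l m : ℂ} {A B : Matrix (Ix k) (Ix k) ℂ} (hA : Simil l A)
    (hB : Simil m B) : Simil (l * m) (A * B) := by
  unfold Simil at *
  rw [Matrix.transpose_mul]
  calc B.transpose * A.transpose * Matrix.J (Fin k) ℂ * (A * B)
      = B.transpose * (A.transpose * Matrix.J (Fin k) ℂ * A) * B := by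
        simp only [Matrix.mul_assoc]
    _ = (l * m) • Matrix.J (Fin k) ℂ := by
        rw [hA, Matrix.mul_smul, Matrix.smul_mul, hB, smul_smul]

theorem simil_smul {k : ℕ} {l c : ℂ} {A : Matrix (Ix k) (Ix k) ℂ} (hA : Simil l A) :
    Simil (c ^ 2 * l) (c • A) := by
  unfold Simil at *
  rw [Matrix.transpose_smul, Matrix.smul_mul, Matrix.smul_mul, Matrix.mul_smul, hA, smul_smul,
    smul_smul, pow_two, mul_assoc]

variable {r : ℕ} {g : Fin r → ℕ}

/-- The point `(x ^ 2, x ^ (w i) s i)`. -/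
noncomputable def pt (w : Fin r → ℕ) (s : ∀ i, Matrix (Ix (g i)) (Ix (g i)) ℂ) (x : ℂ) : Pt g :=
  (x ^ 2, fun i => x ^ w i • s i)

/-- The coordinates of `pt` as polynomials. -/
noncomputable def fp (w : Fin r → ℕ) (s : ∀ i, Matrix (Ix (g i)) (Ix (g i)) ℂ) :
    Crd g → Polynomial ℂ :=
  fun o => o.elim (Polynomial.X ^ 2)
    (fun p => Polynomial.X ^ w p.1 * Polynomial.C (s p.1 p.2.1 p.2.2))

theorem eval_aeval (P : Pol g) (f : Crd g → Polynomial ℂ) (x : ℂ) :
    (MvPolynomial.aeval f P : Polynomial ℂ).eval x =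
      MvPolynomial.eval (fun v => (f v).eval x) P := by
  induction P using MvPolynomial.induction_on with
  | C a => simp
  | add p q hp hq => simp [hp, hq]
  | mul_X p i hp => simp [hp]

theorem eval_fp (w : Fin r → ℕ) (s : ∀ i, Matrix (Ix (g i)) (Ix (g i)) ℂ) (P : Pol g) (x : ℂ) :
    (MvPolynomial.aeval (fp w s) P : Polynomial ℂ).eval x = ev P (pt w s x) := by
  rw [eval_aeval]
  unfold ev
  have h : (fun v => (fp w s v).eval x) = HGP.tpt (pt w s x).1 (pt w s x).2 := by
    funext v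
    match v with
    | none => simp [fp, HGP.tpt, pt]
    | some ⟨i, a, b⟩ =>
      change (Polynomial.X ^ w i * Polynomial.C (s i a b)).eval x = x ^ w i * s i a b
      rw [Polynomial.eval_mul, Polynomial.eval_pow, Polynomial.eval_X, Polynomial.eval_C]
  rw [h]

end CLO_

open CLO_ in
theorem clo_proof : Stmt_CLO := by
  intro r g w H hH hinf hfull a ha
  obtain ⟨z, hz⟩ : ∃ z : ℂ, z ^ 2 = a.1 := by
    obtain ⟨z, hz⟩ := IsAlgClosed.exists_pow_nat_eq a.1 (n := 2) (by norm_num)
    exact ⟨z, hz⟩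
  have hz0 : z ≠ 0 := by
    intro h0
    apply ha.1
    rw [← hz, h0]
    ring
  obtain ⟨s, hs⟩ : ∃ s : ∀ i, Matrix (Ix (g i)) (Ix (g i)) ℂ, s = fun i => (z⁻¹) ^ w i • a.2 i :=
    ⟨_, rfl⟩
  have hs1 : ∀ i, Simil 1 (s i) := by
    intro i
    have h1 := simil_smul (c := (z⁻¹) ^ w i) (ha.2 i)
    have h2 : ((z⁻¹) ^ w i) ^ 2 * a.1 ^ w i = 1 := by
      rw [← hz, ← pow_mul, ← pow_mul, mul_comm (w i) 2, ← mul_pow]
      rw [inv_mul_cancel₀ hz0, one_pow]
    rw [h2] at h1
    rw [hs]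
    exact h1
  have hpt : pt w s z = a := by
    apply Prod.ext
    · exact hz
    · funext i
      change z ^ w i • s i = a.2 i
      rw [hs]
      change z ^ w i • ((z⁻¹) ^ w i • a.2 i) = a.2 i
      rw [smul_smul, ← mul_pow, mul_inv_cancel₀ hz0, one_pow, one_smul]
  apply hH.closed a ha
  intro P hP
  rw [← hpt, ← eval_fp]
  -- the polynomial vanishes
  have key : ∀ x : ℂ, (∃ h ∈ H, h.1 = x ^ 2) → pt w s x ∈ H := by
    rintro x ⟨h, hh, hx⟩
    obtain ⟨b, hb, hb1, hb2⟩ := hH.inv h hh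
    have hbG := hH.sub b hb
    have e1 : b.1 * x ^ 2 = 1 := by
      rw [← hx]
      exact congrArg Prod.fst hb2
    have hk : b * pt w s x ∈ H := by
      apply hfull
      · exact e1
      · intro i
        have h1 : Simil ((x ^ w i) ^ 2 * 1) (x ^ w i • s i) := simil_smul (hs1 i)
        have h2 := simil_mul (hbG.2 i) h1
        have h3 : b.1 ^ w i * ((x ^ w i) ^ 2 * 1) = 1 := by
          rw [mul_one, ← pow_mul, mul_comm (w i) 2, pow_mul, ← mul_pow, e1, one_pow]
        rw [h3] at h2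
        exact h2
    have h4 := hH.mul h hh _ hk
    rw [← mul_assoc, hb1, one_mul] at h4
    exact h4
  have hzero : (MvPolynomial.aeval (fp w s) P : Polynomial ℂ) = 0 := by
    apply Polynomial.eq_zero_of_infinite_isRoot
    have hinf2 : {x : ℂ | ∃ h ∈ H, h.1 = x ^ 2}.Infinite := by
      intro hfin
      apply hinf
      refine (hfin.image (fun x => x ^ 2)).subset ?_
      rintro y ⟨h, hh, hy⟩
      obtain ⟨x, hx⟩ := IsAlgClosed.exists_pow_nat_eq y (n := 2) (by norm_num)
      exact ⟨x, ⟨h, hh, by rw [hy, hx]⟩, hx⟩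
    refine hinf2.mono ?_
    intro x hx
    change Polynomial.IsRoot _ x
    rw [Polynomial.IsRoot.def, eval_fp]
    exact hP _ (key x hx)
  rw [hzero, Polynomial.eval_zero]

end Pool.Agent.UBD
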