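import Pool.Agent.UBD.Stmts
import Pool.Agent.HGP.GENB

set_option autoImplicit false

/-!
# UBD: module IRR (`G` is irreducible)
-/

open scoped BigOperators

namespace Pool.Agent.UBD

open Pool.Agent.HGP (Ix Simil)

noncomputable section

namespace IRR_

/-- polynomial functions of one variable -/
def PC (f : ℂ → ℂ) : Prop := ∃ p : Polynomial ℂ, ∀ t, f t = p.eval t

theorem PC.const (a : ℂ) : PC (fun _ => a) := ⟨Polynomial.C a, fun t => by simp⟩

theorem PC.add {f h : ℂ → ℂ} (hf : PC f) (hh : PC h) : PC (fun t => f t + h t) := by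
  obtain ⟨p, hp⟩ := hf
  obtain ⟨q, hq⟩ := hh
  exact ⟨p + q, fun t => by simp [hp, hq]⟩

theorem PC.mul {f h : ℂ → ℂ} (hf : PC f) (hh : PC h) : PC (fun t => f t * h t) := by
  obtain ⟨p, hp⟩ := hf
  obtain ⟨q, hq⟩ := hh
  exact ⟨p * q, fun t => by simp [hp, hq]⟩

theorem PC.pow {f : ℂ → ℂ} (hf : PC f) (n : ℕ) : PC (fun t => f t ^ n) := by
  obtain ⟨p, hp⟩ := hf
  exact ⟨p ^ n, fun t => by simp [hp]⟩

theorem PC.id : PC (fun t => t) := ⟨Polynomial.X, fun t => by simp⟩

theorem PC.sum {κ : Type} (s : Finset κ) (f : κ → ℂ → ℂ) (hf : ∀ k ∈ s, PC (f k)) :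
    PC (fun t => ∑ k ∈ s, f k t) := by
  classical
  induction s using Finset.induction_on with
  | empty => simpa using PC.const 0
  | insert a s ha ih =>
    simp only [Finset.sum_insert ha]
    exact PC.add (hf a (Finset.mem_insert_self _ _))
      (ih fun k hk => hf k (Finset.mem_insert_of_mem hk))

variable {r : ℕ} {g : Fin r → ℕ}

/-- polynomial paths -/
def PP (f : ℂ → Pt g) : Prop := ∀ k : Crd g, PC (fun t => HGP.tpt (f t).1 (f t).2 k)

theorem PP.ev {f : ℂ → Pt g} (hf : PP f) (P : Pol g) : PC (fun t => ev P (f t)) := by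
  choose p hp using hf
  refine ⟨MvPolynomial.aeval p P, fun t => ?_⟩
  show UBD.ev P (f t) = _
  unfold UBD.ev
  have h1 : HGP.tpt (f t).1 (f t).2 = fun k => (p k).eval t := by
    funext k
    exact hp k t
  rw [h1]
  induction P using MvPolynomial.induction_on with
  | C a => simp
  | add p q hp hq => simp [hp, hq]
  | mul_X p i hp => simp [hp]

theorem PP.fst {f : ℂ → Pt g} (hf : PP f) : PC (fun t => (f t).1) := hf none

theorem PP.snd {f : ℂ → Pt g} (hf : PP f) (i : Fin r) (a b : Ix (g i)) :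
    PC (fun t => (f t).2 i a b) := hf (some ⟨i, a, b⟩)

theorem PP.mk {f : ℂ → Pt g} (h1 : PC (fun t => (f t).1))
    (h2 : ∀ i a b, PC (fun t => (f t).2 i a b)) : PP f := by
  intro k
  rcases k with _ | ⟨i, a, b⟩
  · exact h1
  · exact h2 i a b

theorem PP.const (a : Pt g) : PP (fun _ => a) :=
  PP.mk (PC.const _) fun _ _ _ => PC.const _

theorem PP.mul {f h : ℂ → Pt g} (hf : PP f) (hh : PP h) : PP (fun t => f t * h t) := by
  refine PP.mk (PC.mul hf.fst hh.fst) fun i a b => ?_
  have : (fun t => (f t * h t).2 i a b) = fun t => ∑ k, (f t).2 i a k * (h t).2 i k b := by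
    funext t
    simp [Matrix.mul_apply]
  rw [this]
  exact PC.sum _ _ fun k _ => PC.mul (hf.snd i a k) (hh.snd i k b)

/-- two polynomials and a nonzero value of the variable -/
theorem two (f h : ℂ → ℂ) (hf : PC f) (hh : PC h) (s t : ℂ) (hs : f s ≠ 0) (ht : h t ≠ 0) :
    ∃ u : ℂ, u ≠ 0 ∧ f u ≠ 0 ∧ h u ≠ 0 := by
  obtain ⟨p, hp⟩ := hf
  obtain ⟨q, hq⟩ := hh
  by_contra hc
  push Not at hc
  have h0 : Polynomial.X * p * q = 0 := by
    apply Polynomial.funext
    intro u
    rw [Polynomial.eval_mul, Polynomial.eval_mul, Polynomial.eval_X, ← hp, ← hq,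
      Polynomial.eval_zero]
    by_cases hu : u = 0
    · simp [hu]
    · by_cases hfu : f u = 0
      · simp [hfu]
      · rw [hc u hu hfu]; simp
  rcases mul_eq_zero.mp h0 with h1 | h1
  · rcases mul_eq_zero.mp h1 with h2 | h2
    · exact Polynomial.X_ne_zero h2
    · apply hs; rw [hp, h2]; simp
  · apply ht; rw [hq, h1]; simp

/-- the group is closed under products -/
theorem InG.mul {w : Fin r → ℕ} {a b : Pt g} (ha : InG w a) (hb : InG w b) : InG w (a * b) := by
  refine ⟨mul_ne_zero ha.1 hb.1, fun i => ?_⟩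
  have h1 := ha.2 i
  have h2 := hb.2 i
  unfold Simil at *
  have e1 : (a * b).2 i = a.2 i * b.2 i := rfl
  have e2 : (a * b).1 = a.1 * b.1 := rfl
  rw [e1, e2, Matrix.transpose_mul]
  calc (b.2 i).transpose * (a.2 i).transpose * Matrix.J (Fin (g i)) ℂ * (a.2 i * b.2 i)
      = (b.2 i).transpose * ((a.2 i).transpose * Matrix.J (Fin (g i)) ℂ * a.2 i) * b.2 i := by
        simp only [Matrix.mul_assoc]
    _ = (a.1 ^ w i) • ((b.2 i).transpose * Matrix.J (Fin (g i)) ℂ * b.2 i) := by
        rw [h1]; simp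
    _ = ((a.1 * b.1) ^ w i) • Matrix.J (Fin (g i)) ℂ := by
        rw [h2, smul_smul, mul_pow]

theorem InG.one (w : Fin r → ℕ) : InG w (1 : Pt g) := by
  refine ⟨one_ne_zero, fun i => ?_⟩
  unfold Simil
  simp

/-- elements which can be reached -/
def Good (w : Fin r → ℕ) (x : Pt g) : Prop := ∀ (P Q : Pol g) (a b s : Pt g), InG w s →
  ev P (a * s) ≠ 0 → ev Q (b * x * s) ≠ 0 →
    ∃ t, InG w t ∧ ev P (a * t * s) ≠ 0 ∧ ev Q (b * t * s) ≠ 0

theorem Good.one (w : Fin r → ℕ) : Good w (1 : Pt g) := by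
  intro P Q a b s _ h1 h2
  exact ⟨1, InG.one w, by simpa using h1, h2⟩

theorem Good.mul {w : Fin r → ℕ} {x y : Pt g} (hx : Good w x) (hy : Good w y) :
    Good w (x * y) := by
  intro P Q a b s hs h1 h2
  have h3 : ev Q (b * x * y * s) ≠ 0 := by
    have : b * x * y * s = b * (x * y) * s := by rw [mul_assoc b x y]
    rw [this]; exact h2
  obtain ⟨t, ht, h4, h5⟩ := hy P Q a (b * x) s hs h1 h3
  have h4' : ev P (a * (t * s)) ≠ 0 := by rw [← mul_assoc]; exact h4
  have h5' : ev Q (b * x * (t * s)) ≠ 0 := by rw [← mul_assoc]; exact h5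
  obtain ⟨t', ht', h6, h7⟩ := hx P Q a b (t * s) (InG.mul ht hs) h4' h5'
  refine ⟨t' * t, InG.mul ht' ht, ?_, ?_⟩
  · have : a * (t' * t) * s = a * t' * (t * s) := by simp only [mul_assoc]
    rw [this]; exact h6
  · have : b * (t' * t) * s = b * t' * (t * s) := by simp only [mul_assoc]
    rw [this]; exact h7

theorem Good.path {w : Fin r → ℕ} (f : ℂ → Pt g) (hf : PP f) (h1 : f 1 = 1)
    (hG : ∀ t, t ≠ 0 → InG w (f t)) (z : ℂ) : Good w (f z) := by
  intro P Q a b s _ hP hQ
  have k1 : PC (fun t => ev P (a * f t * s)) :=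
    PP.ev (PP.mul (PP.mul (PP.const a) hf) (PP.const s)) P
  have k2 : PC (fun t => ev Q (b * f t * s)) :=
    PP.ev (PP.mul (PP.mul (PP.const b) hf) (PP.const s)) Q
  obtain ⟨u, hu, h3, h4⟩ := two _ _ k1 k2 1 z (by simpa [h1] using hP) hQ
  exact ⟨f u, hG u hu, h3, h4⟩

/-- the element with one component -/
def up (i : Fin r) (M : Matrix (Ix (g i)) (Ix (g i)) ℂ) : Pt g :=
  (1, Function.update (fun _ => 1) i M)

theorem up_one (i : Fin r) : up i (1 : Matrix (Ix (g i)) (Ix (g i)) ℂ) = (1 : Pt g) := by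
  unfold up
  ext1
  · rfl
  · funext j
    by_cases h : j = i
    · subst h; simp
    · simp [Function.update_of_ne h]

theorem up_mul (i : Fin r) (M N : Matrix (Ix (g i)) (Ix (g i)) ℂ) :
    up i (M * N) = (up i M * up i N : Pt g) := by
  unfold up
  ext1
  · simp
  · funext j
    by_cases h : j = i
    · subst h; simp
    · simp [Function.update_of_ne h]

theorem simil_tv {k : ℕ} (v : Ix k → ℂ) (c : ℂ) : Simil 1 (HGP.tv v c) := by
  have hJJ : Matrix.J (Fin k) ℂ * Matrix.J (Fin k) ℂ = -1 := Matrix.J_squared _ _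
  have hJT : (Matrix.J (Fin k) ℂ).transpose = -Matrix.J (Fin k) ℂ := Matrix.J_transpose _ _
  have hvJv : v ⬝ᵥ (Matrix.J (Fin k) ℂ).mulVec v = 0 := by
    have h1 : v ⬝ᵥ (Matrix.J (Fin k) ℂ).mulVec v = -(v ⬝ᵥ (Matrix.J (Fin k) ℂ).mulVec v) := by
      conv_lhs => rw [Matrix.dotProduct_mulVec, ← Matrix.mulVec_transpose, hJT, Matrix.neg_mulVec,
        neg_dotProduct, dotProduct_comm]
    exact self_eq_neg.mp h1
  unfold Simil HGP.tv
  set u := (Matrix.J (Fin k) ℂ).mulVec v with hu
  have e1 : (Matrix.vecMulVec v u).transpose * Matrix.J (Fin k) ℂ = Matrix.vecMulVec u (-u) := by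
    rw [Matrix.transpose_vecMulVec, Matrix.vecMulVec_mul, ← Matrix.mulVec_transpose, hJT,
      Matrix.neg_mulVec]
  have e2 : Matrix.J (Fin k) ℂ * Matrix.vecMulVec v u = Matrix.vecMulVec u u := by
    rw [Matrix.mul_vecMulVec]
  have e3 : Matrix.vecMulVec u (-u) * Matrix.vecMulVec v u = 0 := by
    rw [Matrix.vecMulVec_mul_vecMulVec, neg_dotProduct, dotProduct_comm, hvJv]
    ext a b
    simp [Matrix.vecMulVec_apply]
  rw [Matrix.transpose_add, Matrix.transpose_one, Matrix.transpose_smul, Matrix.add_mul,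
    Matrix.one_mul, Matrix.smul_mul, e1, Matrix.mul_add, Matrix.mul_one, Matrix.add_mul,
    Matrix.mul_smul, e2, Matrix.smul_mul, Matrix.mul_smul, e3]
  ext a b
  simp [Matrix.vecMulVec_apply]

theorem good_tv (w : Fin r → ℕ) (i : Fin r) (v : Ix (g i) → ℂ) (c : ℂ) :
    Good w (up i (HGP.tv v c)) := by
  have hpath := Good.path (w := w) (fun t : ℂ => up i (HGP.tv v (t - 1))) ?_ ?_ ?_ (c + 1)
  · simpa using hpath
  · refine PP.mk (PC.const _) fun j a b => ?_
    by_cases h : j = i
    · subst h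
      have : (fun t : ℂ => (up j (HGP.tv v (t - 1))).2 j a b) = fun t : ℂ =>
          ((1 : Matrix (Ix (g j)) (Ix (g j)) ℂ) a b) +
            (t + (-1)) * (Matrix.vecMulVec v ((Matrix.J (Fin (g j)) ℂ).mulVec v) a b) := by
        funext t
        simp [up, HGP.tv, sub_eq_add_neg]
      rw [this]
      exact PC.add (PC.const _) (PC.mul (PC.add PC.id (PC.const _)) (PC.const _))
    · have : (fun t : ℂ => (up i (HGP.tv v (t - 1))).2 j a b) = fun _ : ℂ =>
          ((1 : Matrix (Ix (g j)) (Ix (g j)) ℂ) a b) := by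
        funext t
        simp [up, Function.update_of_ne h]
      rw [this]
      exact PC.const _
  · have : HGP.tv v ((1 : ℂ) - 1) = (1 : Matrix (Ix (g i)) (Ix (g i)) ℂ) := by
      simp [HGP.tv]
    simp only [this]
    exact up_one i
  · intro t _
    refine ⟨one_ne_zero, fun j => ?_⟩
    by_cases h : j = i
    · subst h
      simp only [up, Function.update_self, one_pow]
      exact simil_tv v (t - 1)
    · simp only [up, Function.update_of_ne h, one_pow]
      unfold Simil
      simp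

theorem good_up (w : Fin r → ℕ) (i : Fin r) (M : Matrix (Ix (g i)) (Ix (g i)) ℂ)
    (hM : Simil 1 M) : Good w (up i M) := by
  have h1 := HGP.genb_proof (g i) M hM
  clear hM
  induction h1 using Submonoid.closure_induction with
  | mem x hx =>
    obtain ⟨v, c, rfl⟩ := hx
    exact good_tv w i v c
  | one => rw [up_one]; exact Good.one w
  | mul x y _ _ hx hy => rw [up_mul]; exact Good.mul hx hy

theorem good_fin (w : Fin r → ℕ) (s : ∀ i, Matrix (Ix (g i)) (Ix (g i)) ℂ)
    (hs : ∀ i, Simil 1 (s i)) (T : Finset (Fin r)) :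
    Good w ((1, fun i => if i ∈ T then s i else 1) : Pt g) := by
  classical
  induction T using Finset.induction_on with
  | empty =>
    have : ((1, fun i => if i ∈ (∅ : Finset (Fin r)) then s i else 1) : Pt g) = 1 := by
      ext1
      · rfl
      · funext i; simp
    rw [this]
    exact Good.one w
  | insert a T ha ih =>
    have : ((1, fun i => if i ∈ insert a T then s i else 1) : Pt g) =
        ((1, fun i => if i ∈ T then s i else 1) : Pt g) * up a (s a) := by
      ext1
      · simp [up]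
      · funext i
        simp only [Prod.snd_mul, Pi.mul_apply, up]
        by_cases h : i = a
        · subst h
          simp [ha]
        · simp [Function.update_of_ne h, h]
    rw [this]
    exact Good.mul ih (good_up w a (s a) (hs a))

/-- scalings -/
def sc (w : Fin r → ℕ) (z : ℂ) : Pt g := (z ^ 2, fun i => (z ^ w i) • 1)

theorem simil_smul_one {k : ℕ} (z : ℂ) (n : ℕ) :
    Simil ((z ^ 2) ^ n) ((z ^ n) • (1 : Matrix (Ix k) (Ix k) ℂ)) := by
  unfold Simil
  rw [Matrix.transpose_smul, Matrix.transpose_one]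
  simp only [Matrix.smul_mul, Matrix.one_mul, Matrix.mul_smul, Matrix.mul_one, smul_smul]
  congr 1
  ring

theorem good_sc (w : Fin r → ℕ) (z : ℂ) : Good w (sc w z : Pt g) := by
  refine Good.path (w := w) (fun t : ℂ => sc w t) ?_ ?_ ?_ z
  · refine PP.mk (PC.pow PC.id 2) fun j a b => ?_
    have : (fun t : ℂ => (sc w t : Pt g).2 j a b) = fun t : ℂ =>
        t ^ w j * ((1 : Matrix (Ix (g j)) (Ix (g j)) ℂ) a b) := by
      funext t
      simp [sc]
    rw [this]
    exact PC.mul (PC.pow PC.id _) (PC.const _)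
  · ext1
    · simp [sc]
    · funext i; simp [sc]
  · intro t ht
    refine ⟨pow_ne_zero 2 ht, fun i => ?_⟩
    exact simil_smul_one t (w i)

theorem good_all (w : Fin r → ℕ) (x : Pt g) (hx : InG w x) : Good w x := by
  classical
  obtain ⟨z, hz⟩ := IsAlgClosed.exists_pow_nat_eq x.1 (n := 2) (by norm_num)
  have hz0 : z ≠ 0 := by
    intro h
    apply hx.1
    rw [← hz, h]
    simp
  set s : ∀ i, Matrix (Ix (g i)) (Ix (g i)) ℂ := fun i => (z ^ w i)⁻¹ • x.2 i with hs
  have hsS : ∀ i, Simil 1 (s i) := by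
    intro i
    have h1 := hx.2 i
    unfold Simil at *
    simp only [hs, Matrix.transpose_smul, Matrix.smul_mul, Matrix.mul_smul, h1, smul_smul]
    congr 1
    rw [← hz]
    have h2 : z ^ w i ≠ 0 := pow_ne_zero _ hz0
    field_simp
    ring
  have hfac : x = sc w z * ((1, fun i => if i ∈ (Finset.univ : Finset (Fin r)) then s i else 1) :
      Pt g) := by
    ext1
    · simp [sc, hz]
    · funext i
      simp only [Prod.snd_mul, Pi.mul_apply, sc, Finset.mem_univ, if_true, hs, Matrix.smul_mul,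
        Matrix.one_mul, smul_smul]
      rw [mul_inv_cancel₀ (pow_ne_zero _ hz0), one_smul]
  rw [hfac]
  exact Good.mul (good_sc w z) (good_fin w s hsS _)

/-- inverses in the group -/
theorem exists_inv (w : Fin r → ℕ) (a : Pt g) (ha : InG w a) :
    ∃ b, InG w b ∧ a * b = 1 := by
  have hdet : ∀ i, ∃ N : Matrix (Ix (g i)) (Ix (g i)) ℂ, a.2 i * N = 1 ∧
      Simil ((a.1⁻¹) ^ w i) N := by
    intro i
    have h1 := ha.2 i
    unfold Simil at h1
    have hl : (a.1 ^ w i) ≠ 0 := pow_ne_zero _ ha.1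
    have hJ : Matrix.J (Fin (g i)) ℂ * Matrix.J (Fin (g i)) ℂ = -1 := Matrix.J_squared _ _
    set K : Matrix (Ix (g i)) (Ix (g i)) ℂ :=
      -((a.1 ^ w i)⁻¹ • (Matrix.J (Fin (g i)) ℂ * (a.2 i).transpose * Matrix.J (Fin (g i)) ℂ))
      with hK
    have hKa : K * a.2 i = 1 := by
      rw [hK]
      simp only [Matrix.neg_mul, Matrix.smul_mul, Matrix.mul_assoc]
      rw [← Matrix.mul_assoc (a.2 i).transpose, h1]
      simp only [Matrix.mul_smul, hJ, smul_smul, inv_mul_cancel₀ hl, one_smul, neg_neg]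
    have haK : a.2 i * K = 1 := mul_eq_one_comm.mp hKa
    refine ⟨K, haK, ?_⟩
    unfold Simil
    have h2 : K.transpose * ((a.2 i).transpose * Matrix.J (Fin (g i)) ℂ * a.2 i) * K =
        Matrix.J (Fin (g i)) ℂ := by
      have e1 : K.transpose * (a.2 i).transpose = 1 := by
        rw [← Matrix.transpose_mul, haK, Matrix.transpose_one]
      calc K.transpose * ((a.2 i).transpose * Matrix.J (Fin (g i)) ℂ * a.2 i) * K
          = (K.transpose * (a.2 i).transpose) * Matrix.J (Fin (g i)) ℂ * (a.2 i * K) := by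
            simp only [Matrix.mul_assoc]
        _ = Matrix.J (Fin (g i)) ℂ := by rw [e1, haK]; simp
    rw [h1] at h2
    simp only [Matrix.mul_smul, Matrix.smul_mul] at h2
    have h3 := congrArg (fun X => (a.1 ^ w i)⁻¹ • X) h2
    simp only [smul_smul, inv_mul_cancel₀ hl, one_smul] at h3
    rw [inv_pow]
    exact h3
  choose N hN using hdet
  refine ⟨(a.1⁻¹, N), ⟨inv_ne_zero ha.1, fun i => (hN i).2⟩, ?_⟩
  ext1
  · exact mul_inv_cancel₀ ha.1
  · funext i
    exact (hN i).1

theorem two_pol (w : Fin r → ℕ) (P Q : Pol g) (hP : ∃ a, InG w a ∧ ev P a ≠ 0)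
    (hQ : ∃ a, InG w a ∧ ev Q a ≠ 0) : ∃ a, InG w a ∧ ev P a ≠ 0 ∧ ev Q a ≠ 0 := by
  obtain ⟨a, ha, hPa⟩ := hP
  obtain ⟨b, hb, hQb⟩ := hQ
  obtain ⟨a', ha', haa'⟩ := exists_inv w a ha
  have hx := good_all w (a' * b) (InG.mul ha' hb)
  have h1 : a * (a' * b) = b := by rw [← mul_assoc, haa', one_mul]
  obtain ⟨t, ht, h2, h3⟩ := hx P Q a a 1 (InG.one w) (by simpa using hPa)
    (by rw [h1, mul_one]; exact hQb)
  exact ⟨a * t, InG.mul ha ht, by simpa using h2, by simpa using h3⟩

end IRR_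

theorem irr_proof : Stmt_IRR := by
  intro r g w m P hP
  classical
  have key : ∀ T : Finset (Fin m), ∃ a, InG w a ∧ ev (∏ j ∈ T, P j) a ≠ 0 := by
    intro T
    induction T using Finset.induction_on with
    | empty =>
      refine ⟨1, IRR_.InG.one w, ?_⟩
      simp [ev]
    | insert j T hj ih =>
      obtain ⟨a, ha, h1, h2⟩ := IRR_.two_pol w (P j) (∏ j ∈ T, P j) (hP j) ih
      refine ⟨a, ha, ?_⟩
      rw [Finset.prod_insert hj]
      unfold ev at *
      rw [map_mul]
      exact mul_ne_zero h1 h2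
  obtain ⟨a, ha, h⟩ := key Finset.univ
  refine ⟨a, ha, fun j hj => h ?_⟩
  unfold ev at *
  rw [map_prod]
  exact Finset.prod_eq_zero (Finset.mem_univ j) hj

end

end Pool.Agent.UBD
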