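import Pool.Agent.UBD.Stmts

set_option autoImplicit false
set_option linter.unusedSectionVars false

/-!
# JOR: a form of the theorem of Jordan on finite linear groups
-/

open scoped BigOperators Matrix.Norms.L2Operator MatrixOrder ComplexOrder

namespace Pool.Agent.UBD

namespace JOR_

variable {m : Type} [Fintype m] [DecidableEq m]

theorem exists_gap (n : ℕ) (hn : 0 < n) : ∃ c : ℝ, 0 < c ∧ c ≤ 1 / 2 ∧
    ∀ z : ℂ, z ^ n = 1 → z ≠ 1 → 4 * c ≤ ‖z - 1‖ := by
  classical
  have hfin : {z : ℂ | z ^ n = 1 ∧ z ≠ 1}.Finite := by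
    refine Set.Finite.subset (Polynomial.nthRootsFinset n (1 : ℂ)).finite_toSet ?_
    rintro z ⟨hz, _⟩
    simpa [Polynomial.mem_nthRootsFinset hn] using hz
  rcases Set.eq_empty_or_nonempty {z : ℂ | z ^ n = 1 ∧ z ≠ 1} with h | h
  · refine ⟨1 / 2, by norm_num, le_refl _, fun z h1 h2 => ?_⟩
    have h3 : z ∈ {z : ℂ | z ^ n = 1 ∧ z ≠ 1} := ⟨h1, h2⟩
    rw [h] at h3
    exact absurd h3 (Set.notMem_empty z)
  · obtain ⟨w, hw, hmin⟩ := Set.exists_min_image _ (fun z : ℂ => ‖z - 1‖) hfin h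
    have hpos : 0 < ‖w - 1‖ := norm_pos_iff.2 (sub_ne_zero.2 hw.2)
    refine ⟨min (1 / 2) (‖w - 1‖ / 4), by positivity, min_le_left _ _, fun z h1 h2 => ?_⟩
    have h4 := hmin z ⟨h1, h2⟩
    have h3 := min_le_right (1 / 2 : ℝ) (‖w - 1‖ / 4)
    linarith

/-- the unitary trick -/
theorem exists_P {S : Set (Matrix m m ℂ)} (hS : FinG S) : ∃ P : Matrix m m ℂ, IsUnit P.det ∧
    ∀ s ∈ S, star (P * s * P⁻¹) * (P * s * P⁻¹) = 1 := by
  classical
  set T := hS.fin.toFinset with hT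
  have hmem : ∀ x, x ∈ T ↔ x ∈ S := fun x => by rw [hT, Set.Finite.mem_toFinset]
  set B : Matrix m m ℂ := ∑ s ∈ T, star s * s with hB
  have h1 : (1 : Matrix m m ℂ) ∈ T := (hmem 1).2 hS.one
  have hBp : B.PosDef := by
    rw [hB, ← Finset.add_sum_erase T _ h1]
    refine Matrix.PosDef.add_posSemidef ?_ ?_
    · rw [star_one, one_mul]
      exact Matrix.PosDef.one
    · exact Matrix.posSemidef_sum _ fun s _ => Matrix.posSemidef_conjTranspose_mul_self s
  obtain ⟨P, hP⟩ := CStarAlgebra.nonneg_iff_eq_star_mul_self.mp hBp.posSemidef.nonneg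
  have hdet : IsUnit P.det := by
    have h2 := (Matrix.isUnit_iff_isUnit_det _).1 hBp.isUnit
    rw [hP, Matrix.det_mul] at h2
    exact isUnit_of_mul_isUnit_right h2
  refine ⟨P, hdet, fun s hs => ?_⟩
  have hinv : star s * B * s = B := by
    rw [hB, Finset.mul_sum, Finset.sum_mul]
    obtain ⟨s', hs', h3, h4⟩ := hS.inv s hs
    refine Finset.sum_bij' (fun t _ => t * s) (fun t _ => t * s') ?_ ?_ ?_ ?_ ?_
    · intro t ht
      exact (hmem _).2 (hS.mul t ((hmem t).1 ht) s hs)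
    · intro t ht
      exact (hmem _).2 (hS.mul t ((hmem t).1 ht) s' hs')
    · intro t _
      simp only [mul_assoc, h3, mul_one]
    · intro t _
      simp only [mul_assoc, h4, mul_one]
    · intro t _
      simp only [star_mul, mul_assoc]
  have hPP : P * P⁻¹ = 1 := Matrix.mul_nonsing_inv P hdet
  have hPP' : P⁻¹ * P = 1 := Matrix.nonsing_inv_mul P hdet
  have hst : star P⁻¹ * star P = 1 := by rw [← star_mul, hPP, star_one]
  calc star (P * s * P⁻¹) * (P * s * P⁻¹)
      = star P⁻¹ * (star s * (star P * P) * s) * P⁻¹ := by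
        simp only [star_mul, mul_assoc]
    _ = star P⁻¹ * (star P * P) * P⁻¹ := by rw [← hP, hinv]
    _ = (star P⁻¹ * star P) * (P * P⁻¹) := by simp only [mul_assoc]
    _ = 1 := by rw [hst, hPP, one_mul]

theorem det_comm {a b a' b' : Matrix m m ℂ} (ha : a * a' = 1) (hb : b * b' = 1) :
    (a * b * a' * b').det = 1 := by
  have h1 : a.det * a'.det = 1 := by rw [← Matrix.det_mul, ha, Matrix.det_one]
  have h2 : b.det * b'.det = 1 := by rw [← Matrix.det_mul, hb, Matrix.det_one]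
  rw [Matrix.det_mul, Matrix.det_mul, Matrix.det_mul]
  linear_combination h1 * (b.det * b'.det) + h2

end JOR_

open JOR_

theorem jor_proof : Stmt_JOR := by
  classical
  intro m _ _
  by_cases hm : Nonempty m
  swap
  · refine ⟨0, fun S _ h => ?_⟩
    obtain ⟨s, _, hs⟩ := h
    exact absurd (Matrix.ext fun i _ => absurd ⟨i⟩ hm) (hs 0)
  obtain ⟨c, hc, hc2, hgap⟩ := exists_gap (Fintype.card m) Fintype.card_pos
  have hcpt : IsCompact (Metric.closedBall (0 : Matrix m m ℂ) 1) := isCompact_closedBall _ _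
  obtain ⟨N, -, hNfin, hcov⟩ := hcpt.finite_cover_balls (half_pos hc)
  refine ⟨hNfin.toFinset.card, fun S hS hex => ?_⟩
  obtain ⟨P, hdet, hU⟩ := exists_P hS
  have hPP : P * P⁻¹ = 1 := Matrix.mul_nonsing_inv P hdet
  have hPP' : P⁻¹ * P = 1 := Matrix.nonsing_inv_mul P hdet
  -- conjugation by `P`
  set φ : Matrix m m ℂ → Matrix m m ℂ := fun a => P * a * P⁻¹ with hφ
  have hφm : ∀ a b, φ (a * b) = φ a * φ b := by
    intro a b
    simp only [hφ]
    calc P * (a * b) * P⁻¹ = P * a * 1 * b * P⁻¹ := by simp only [mul_assoc, one_mul]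
      _ = P * a * (P⁻¹ * P) * b * P⁻¹ := by rw [hPP']
      _ = _ := by simp only [mul_assoc]
  have hφz : ∀ z : ℂ, φ (z • 1) = z • 1 := by
    intro z
    simp only [hφ]
    rw [Matrix.mul_smul, mul_one, Matrix.smul_mul, hPP]
  have hφ1 : φ 1 = 1 := by
    have := hφz 1
    rwa [one_smul] at this
  have hφi : ∀ a b, φ a = φ b → a = b := by
    intro a b hab
    have h1 : P⁻¹ * φ a * P = P⁻¹ * φ b * P := by rw [hab]
    simp only [hφ] at h1
    have h2 : ∀ x : Matrix m m ℂ, P⁻¹ * (P * x * P⁻¹) * P = x := by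
      intro x
      calc P⁻¹ * (P * x * P⁻¹) * P = (P⁻¹ * P) * x * (P⁻¹ * P) := by simp only [mul_assoc]
        _ = x := by rw [hPP', one_mul, mul_one]
    rw [h2, h2] at h1
    exact h1
  have huni : ∀ s ∈ S, φ s ∈ unitary (Matrix m m ℂ) := by
    intro s hs
    have h1 := hU s hs
    exact Unitary.mem_iff.2 ⟨h1, mul_eq_one_comm.1 h1⟩
  -- a nonscalar element close to the identity
  obtain ⟨s, ⟨hsS, hsn⟩, hmin⟩ := Set.exists_min_image
    {s | s ∈ S ∧ ∀ c : ℂ, s ≠ c • (1 : Matrix m m ℂ)} (fun s => ‖φ s - 1‖)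
    (hS.fin.subset fun s hs => hs.1) (by
      obtain ⟨s, h1, h2⟩ := hex
      exact ⟨s, h1, h2⟩)
  have hpos : 0 < ‖φ s - 1‖ := by
    rw [norm_pos_iff, sub_ne_zero]
    intro h
    apply hsn 1
    rw [one_smul]
    exact hφi _ _ (h.trans hφ1.symm)
  have hle2 : ‖φ s - 1‖ ≤ 2 := by
    have h1 : ‖φ s‖ ≤ 1 := by
      have := CStarRing.norm_mem_unitary_mul (1 : Matrix m m ℂ) (huni s hsS)
      rw [mul_one, norm_one] at this
      exact this.le
    calc ‖φ s - 1‖ ≤ ‖φ s‖ + ‖(1 : Matrix m m ℂ)‖ := norm_sub_le _ _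
      _ ≤ 1 + 1 := by rw [norm_one]; linarith
      _ = 2 := by norm_num
  have hcom : ∀ h ∈ S, ‖φ h - 1‖ < c → h * s = s * h := by
    intro h hh hhc
    obtain ⟨h', hh', h1, h2⟩ := hS.inv h hh
    obtain ⟨s', hs', h3, h4⟩ := hS.inv s hsS
    have huS : h * s * h' * s' ∈ S := hS.mul _ (hS.mul _ (hS.mul _ hh _ hsS) _ hh') _ hs'
    have hush : h * s * h' * s' * (s * h) = h * s := by
      calc h * s * h' * s' * (s * h) = h * s * (h' * (s' * s) * h) := by simp only [mul_assoc]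
        _ = h * s := by rw [h4, mul_one, h2, mul_one]
    have hnorm : ‖φ (h * s * h' * s') - 1‖ ≤ 2 * ‖φ h - 1‖ * ‖φ s - 1‖ := by
      have hsh : φ (s * h) ∈ unitary (Matrix m m ℂ) := huni _ (hS.mul _ hsS _ hh)
      have e1 : (φ (h * s * h' * s') - 1) * φ (s * h) =
          (φ h - 1) * (φ s - 1) - (φ s - 1) * (φ h - 1) := by
        rw [sub_mul, ← hφm, hush, hφm, hφm]
        noncomm_ring
      rw [← CStarRing.norm_mul_mem_unitary (φ (h * s * h' * s') - 1) hsh, e1]
      calc ‖(φ h - 1) * (φ s - 1) - (φ s - 1) * (φ h - 1)‖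
          ≤ ‖(φ h - 1) * (φ s - 1)‖ + ‖(φ s - 1) * (φ h - 1)‖ := norm_sub_le _ _
        _ ≤ ‖φ h - 1‖ * ‖φ s - 1‖ + ‖φ s - 1‖ * ‖φ h - 1‖ :=
            add_le_add (norm_mul_le _ _) (norm_mul_le _ _)
        _ = 2 * ‖φ h - 1‖ * ‖φ s - 1‖ := by ring
    have hlt : ‖φ (h * s * h' * s') - 1‖ < ‖φ s - 1‖ := by
      refine lt_of_le_of_lt hnorm ?_
      have : 2 * ‖φ h - 1‖ < 1 := by linarith
      calc 2 * ‖φ h - 1‖ * ‖φ s - 1‖ < 1 * ‖φ s - 1‖ := by
            exact mul_lt_mul_of_pos_right this hpos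
        _ = _ := one_mul _
    have hsc : ∃ z : ℂ, h * s * h' * s' = z • (1 : Matrix m m ℂ) := by
      by_contra hne
      push Not at hne
      have := hmin _ ⟨huS, hne⟩
      linarith
    obtain ⟨z, hz⟩ := hsc
    have hz1 : z = 1 := by
      by_contra hzne
      have hzn : z ^ Fintype.card m = 1 := by
        have := det_comm h1 h3
        rw [hz, Matrix.det_smul, Matrix.det_one, mul_one] at this
        exact this
      have h5 := hgap z hzn hzne
      have h6 : ‖φ (h * s * h' * s') - 1‖ = ‖z - 1‖ := by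
        rw [hz, hφz]
        have : z • (1 : Matrix m m ℂ) - 1 = (z - 1) • 1 := by rw [sub_smul, one_smul]
        rw [this, norm_smul, norm_one, mul_one]
      rw [h6] at hnorm
      have h7 : 2 * ‖φ h - 1‖ * ‖φ s - 1‖ < 4 * c := by
        calc 2 * ‖φ h - 1‖ * ‖φ s - 1‖ < 2 * c * ‖φ s - 1‖ := by
              refine mul_lt_mul_of_pos_right ?_ hpos
              linarith
          _ ≤ 2 * c * 2 := by
              refine mul_le_mul_of_nonneg_left hle2 (by linarith)
          _ = 4 * c := by ring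
      linarith
    rw [hz1, one_smul] at hz
    rw [← hush, hz, one_mul]
  -- representatives
  have hrep : ∀ x : Matrix m m ℂ, ∃ t : Matrix m m ℂ,
      ∀ h ∈ S, φ h ∈ Metric.ball x (c / 2) → h * s = t * h := by
    intro x
    by_cases hx : ∃ h ∈ S, φ h ∈ Metric.ball x (c / 2)
    · obtain ⟨g, hg, hgx⟩ := hx
      obtain ⟨g', hg', h1, h2⟩ := hS.inv g hg
      refine ⟨g * s * g', fun h hh hhx => ?_⟩
      have h3 : ‖φ (g' * h) - 1‖ < c := by
        have h4 : φ g * (φ (g' * h) - 1) = φ h - φ g := by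
          rw [mul_sub, ← hφm, ← mul_assoc, h1, one_mul, mul_one]
        rw [← CStarRing.norm_mem_unitary_mul _ (huni g hg), h4]
        have h5 : dist (φ h) (φ g) < c / 2 + c / 2 := by
          refine lt_of_le_of_lt (dist_triangle_right _ _ x) ?_
          exact add_lt_add hhx hgx
        rw [dist_eq_norm] at h5
        linarith
      have h6 := hcom _ (hS.mul _ hg' _ hh) h3
      calc h * s = g * ((g' * h) * s) := by
            rw [← mul_assoc, ← mul_assoc, h1, one_mul]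
        _ = g * (s * (g' * h)) := by rw [h6]
        _ = g * s * g' * h := by simp only [mul_assoc]
    · refine ⟨0, fun h hh hhx => absurd ⟨h, hh, hhx⟩ hx⟩
  choose t ht using hrep
  refine ⟨s, hsS, hsn, hNfin.toFinset.image t, Finset.card_image_le, fun h hh => ?_⟩
  have h1 : φ h ∈ Metric.closedBall (0 : Matrix m m ℂ) 1 := by
    rw [mem_closedBall_zero_iff]
    have := CStarRing.norm_mem_unitary_mul (1 : Matrix m m ℂ) (huni h hh)
    rw [mul_one, norm_one] at this
    exact this.le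
  have h2 := hcov h1
  rw [Set.mem_iUnion₂] at h2
  obtain ⟨x, hxN, hx⟩ := h2
  exact ⟨t x, Finset.mem_image_of_mem t (hNfin.mem_toFinset.2 hxN), ht x h hh hx⟩

end Pool.Agent.UBD
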