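import Pool.Agent.UBD.Stmts
import Pool.Agent.HGP.GEN

set_option autoImplicit false

/-!
# UBD, module LAST: a component which is finite up to scalars contradicts the density
-/

open scoped BigOperators
open Matrix

namespace Pool.Agent.UBD

open Pool.Agent.HGP (Ix Simil)

noncomputable section

namespace LAST_

variable {r : ℕ} {g : Fin r → ℕ}

lemma simil_nv {k : ℕ} (v : Ix k → ℂ) : Simil 1 (1 + nv v) := by
  have h : 1 + nv v = HGP.tv v 1 := by unfold nv HGP.tv; rw [one_smul]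
  rw [h]; exact HGP.GEN_.simil_tv v 1

lemma simil_one {k : ℕ} : Simil 1 (1 : Matrix (Ix k) (Ix k) ℂ) := by
  unfold Simil; simp

/-- The point with only one component different from `1`. -/
def pt1 (i : Fin r) (M : Matrix (Ix (g i)) (Ix (g i)) ℂ) : Pt g :=
  (1, Function.update 1 i M)

lemma pt1_comp (i : Fin r) (M : Matrix (Ix (g i)) (Ix (g i)) ℂ) : (pt1 i M).2 i = M := by
  show Function.update (1 : ∀ i, Matrix (Ix (g i)) (Ix (g i)) ℂ) i M i = M
  rw [Function.update_self]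

lemma inG_pt1 (w : Fin r → ℕ) (i : Fin r) {M : Matrix (Ix (g i)) (Ix (g i)) ℂ}
    (hM : Simil 1 M) : InG w (pt1 i M) := by
  refine ⟨one_ne_zero, fun j => ?_⟩
  show Simil ((1 : ℂ) ^ w j) (Function.update (1 : ∀ i, Matrix (Ix (g i)) (Ix (g i)) ℂ) i M j)
  rw [one_pow]
  by_cases h : j = i
  · subst h; rw [Function.update_self]; exact hM
  · rw [Function.update_of_ne h]; exact simil_one

lemma inG_one (w : Fin r → ℕ) : InG w (1 : Pt g) := by
  refine ⟨one_ne_zero, fun j => ?_⟩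
  show Simil ((1 : ℂ) ^ w j) (1 : Matrix (Ix (g j)) (Ix (g j)) ℂ)
  rw [one_pow]; exact simil_one

/-- A coordinate. -/
def co (i : Fin r) (j k : Ix (g i)) : Pol g := MvPolynomial.X (some ⟨i, (j, k)⟩)

lemma ev_co (i : Fin r) (j k : Ix (g i)) (a : Pt g) : ev (co i j k) a = a.2 i j k := by
  unfold ev co; rw [MvPolynomial.eval_X]; rfl

lemma deg_co (i : Fin r) (j k : Ix (g i)) : (co i j k).totalDegree ≤ 1 := by
  unfold co; exact (MvPolynomial.totalDegree_X _).le

/-- An entry of `a_i s - t a_i`. -/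
def ent (i : Fin r) (s t : Matrix (Ix (g i)) (Ix (g i)) ℂ) (j k : Ix (g i)) : Pol g :=
  ∑ l, (MvPolynomial.C (s l k) * co i j l - MvPolynomial.C (t j l) * co i l k)

lemma ev_ent (i : Fin r) (s t : Matrix (Ix (g i)) (Ix (g i)) ℂ) (j k : Ix (g i)) (a : Pt g) :
    ev (ent i s t j k) a = (a.2 i * s) j k - (t * a.2 i) j k := by
  rw [Matrix.mul_apply, Matrix.mul_apply, ← Finset.sum_sub_distrib]
  unfold ent
  unfold ev
  rw [map_sum]
  refine Finset.sum_congr rfl fun l _ => ?_
  have h1 := ev_co i j l a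
  have h2 := ev_co i l k a
  unfold ev at h1 h2
  rw [map_sub, map_mul, map_mul, MvPolynomial.eval_C, MvPolynomial.eval_C, h1, h2]
  ring

lemma deg_ent (i : Fin r) (s t : Matrix (Ix (g i)) (Ix (g i)) ℂ) (j k : Ix (g i)) :
    (ent i s t j k).totalDegree ≤ 1 := by
  unfold ent
  refine (MvPolynomial.totalDegree_finsetSum _ _).trans ?_
  refine Finset.sup_le fun l _ => ?_
  refine (MvPolynomial.totalDegree_sub _ _).trans (max_le ?_ ?_)
  · refine (MvPolynomial.totalDegree_mul _ _).trans ?_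
    rw [MvPolynomial.totalDegree_C, zero_add]; exact deg_co _ _ _
  · refine (MvPolynomial.totalDegree_mul _ _).trans ?_
    rw [MvPolynomial.totalDegree_C, zero_add]; exact deg_co _ _ _

lemma eig {k : ℕ} (s : Matrix (Ix k) (Ix k) ℂ)
    (h : ∀ v : Ix k → ℂ, nv v * s = s * nv v) (v : Ix k → ℂ) : ∃ c : ℂ, s *ᵥ v = c • v := by
  by_cases hv : v = 0
  · exact ⟨0, by rw [hv]; simp⟩
  have hJv : (Matrix.J (Fin k) ℂ).mulVec v ≠ 0 := by
    intro h0
    apply hv
    have h1 : (Matrix.J (Fin k) ℂ * Matrix.J (Fin k) ℂ).mulVec v = 0 := by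
      rw [← Matrix.mulVec_mulVec, h0, Matrix.mulVec_zero]
    rw [Matrix.J_squared, Matrix.neg_mulVec, Matrix.one_mulVec] at h1
    exact neg_eq_zero.1 h1
  obtain ⟨b, hb⟩ := Function.ne_iff.1 hJv
  rw [Pi.zero_apply] at hb
  have h1 := h v
  unfold nv at h1
  rw [vecMulVec_mul, mul_vecMulVec] at h1
  refine ⟨((Matrix.J (Fin k) ℂ).mulVec v ᵥ* s) b / (Matrix.J (Fin k) ℂ).mulVec v b, ?_⟩
  ext a
  have h2 := congrFun (congrFun h1 a) b
  rw [vecMulVec_apply, vecMulVec_apply] at h2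
  rw [Pi.smul_apply, smul_eq_mul]
  field_simp
  rw [← h2]; ring

lemma scalar_of_comm {k : ℕ} (s : Matrix (Ix k) (Ix k) ℂ)
    (h : ∀ v : Ix k → ℂ, nv v * s = s * nv v) : ∃ c : ℂ, s = c • (1 : Matrix (Ix k) (Ix k) ℂ) := by
  have h0 : ∀ a b : Ix k, a ≠ b → s b a = 0 := by
    intro a b hab
    obtain ⟨c, hc⟩ := eig s h (Pi.single a 1)
    have h1 := congrFun hc b
    rw [Matrix.mulVec_single_one, Pi.smul_apply, Pi.single_eq_of_ne hab.symm, smul_zero] at h1
    exact h1
  have h2 : ∀ a b : Ix k, s a a = s b b := by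
    intro a b
    by_cases hab : a = b
    · rw [hab]
    obtain ⟨c, hc⟩ := eig s h (Pi.single a 1 + Pi.single b 1)
    rw [Matrix.mulVec_add, Matrix.mulVec_single_one, Matrix.mulVec_single_one] at hc
    have h3 := congrFun hc a
    have h4 := congrFun hc b
    simp only [Pi.add_apply, Matrix.col_apply, Pi.smul_apply, Pi.single_eq_same,
      Pi.single_eq_of_ne hab, Pi.single_eq_of_ne (Ne.symm hab), add_zero, zero_add,
      smul_eq_mul, mul_one, h0 a b hab, h0 b a (Ne.symm hab)] at h3 h4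
    rw [h3, h4]
  by_cases hk : Nonempty (Ix k)
  · obtain ⟨a⟩ := hk
    refine ⟨s a a, ?_⟩
    ext i j
    rw [Matrix.smul_apply, smul_eq_mul]
    by_cases hij : i = j
    · subst hij; rw [Matrix.one_apply_eq, mul_one]; exact h2 i a
    · rw [Matrix.one_apply_ne hij, mul_zero]; exact h0 j i (Ne.symm hij)
  · rw [not_nonempty_iff] at hk
    exact ⟨0, by ext i; exact (hk.false i).elim⟩

end LAST_

open LAST_ in
theorem last_proof (hJ : Stmt_JOR) (hI : Stmt_IRR) : Stmt_LAST := by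
  intro r g w i₀ hg
  obtain ⟨J, hJ⟩ := hJ (Ix (g i₀))
  refine ⟨max J 1, ?_⟩
  intro H hHG S hS hHS hD
  by_cases hsc : ∃ s ∈ S, ∀ c : ℂ, s ≠ c • (1 : Matrix (Ix (g i₀)) (Ix (g i₀)) ℂ)
  · obtain ⟨s, hs, hns, F, hF, hFt⟩ := hJ S hS hsc
    have key : ∀ t : Matrix (Ix (g i₀)) (Ix (g i₀)) ℂ, ∃ p : Ix (g i₀) × Ix (g i₀),
        ∃ a, InG w a ∧ ev (ent i₀ s t p.1 p.2) a ≠ 0 := by
      intro t
      by_contra hcon
      push Not at hcon
      have hz : ∀ a, InG w a → a.2 i₀ * s = t * a.2 i₀ := by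
        intro a ha
        ext j k
        have h1 := hcon (j, k) a ha
        rw [ev_ent] at h1
        exact sub_eq_zero.1 h1
      have h1 : s = t := by
        have h2 := hz 1 (inG_one w)
        have h3 : (1 : Pt g).2 i₀ = 1 := rfl
        rw [h3, one_mul, mul_one] at h2
        exact h2
      subst h1
      obtain ⟨c, hc⟩ := scalar_of_comm s (fun v => by
        have h2 := hz (pt1 i₀ (1 + nv v)) (inG_pt1 w i₀ (simil_nv v))
        rw [pt1_comp, add_mul, mul_add, one_mul, mul_one] at h2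
        exact add_left_cancel h2)
      exact hns c hc
    choose p hp using key
    obtain ⟨a, ha, hPa⟩ := hI r g w F.card
      (fun j => ent i₀ s ((F.equivFin.symm j).1) (p (F.equivFin.symm j).1).1
        (p (F.equivFin.symm j).1).2) (fun j => hp _)
    set P : Fin F.card → Pol g := fun j => ent i₀ s ((F.equivFin.symm j).1)
      (p (F.equivFin.symm j).1).1 (p (F.equivFin.symm j).1).2 with hPdef
    have hev : ∀ b : Pt g, ev (∏ j, P j) b = ∏ j, ev (P j) b := by
      intro b; unfold ev; rw [map_prod]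
    have hdeg : (∏ j, P j).totalDegree ≤ max J 1 := by
      refine (MvPolynomial.totalDegree_finsetProd _ _).trans ?_
      refine (Finset.sum_le_card_nsmul _ _ 1 fun j _ => deg_ent _ _ _ _ _).trans ?_
      rw [Finset.card_univ, Fintype.card_fin, smul_eq_mul, mul_one]
      exact hF.trans (le_max_left _ _)
    have hv : ∀ h ∈ H, ev (∏ j, P j) h = 0 := by
      intro h hh
      obtain ⟨z, hz, s', hs', hhs⟩ := hHS h hh
      obtain ⟨t, ht, hst⟩ := hFt s' hs'
      rw [hev]
      refine Finset.prod_eq_zero (Finset.mem_univ (F.equivFin ⟨t, ht⟩)) ?_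
      rw [hPdef]
      simp only [Equiv.symm_apply_apply]
      rw [ev_ent, hhs, smul_mul_assoc, hst, mul_smul_comm, sub_self]
    have h1 := hD _ hdeg hv a ha
    rw [hev, Finset.prod_eq_zero_iff] at h1
    obtain ⟨j, _, hj⟩ := h1
    exact hPa j hj
  · push Not at hsc
    have hv : ∀ h ∈ H, ev (co i₀ (Sum.inl ⟨0, hg⟩) (Sum.inr ⟨0, hg⟩)) h = 0 := by
      intro h hh
      obtain ⟨z, hz, s', hs', hhs⟩ := hHS h hh
      obtain ⟨c, hc⟩ := hsc s' hs'
      rw [ev_co, hhs, hc, Matrix.smul_apply, Matrix.smul_apply, Matrix.one_apply_ne (by simp),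
        smul_zero, smul_zero]
    have h1 := hD _ ((deg_co _ _ _).trans (le_max_right _ _)) hv
      (pt1 i₀ (1 + nv (Pi.single (Sum.inl ⟨0, hg⟩) 1))) (inG_pt1 w i₀ (simil_nv _))
    rw [ev_co, pt1_comp, Matrix.add_apply, Matrix.one_apply_ne (by simp), zero_add] at h1
    unfold nv at h1
    rw [vecMulVec_apply, Pi.single_eq_same, one_mul, Matrix.mulVec_single_one] at h1
    simp [Matrix.J] at h1

end

end Pool.Agent.UBD
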