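import Pool.Agent.UBD.Stmts

set_option autoImplicit false
set_option linter.unusedSectionVars false

/-!
# UBD: an infinite closed subgroup has a Lie algebra different from zero
-/

open scoped BigOperators Topology
open Filter

namespace Pool.Agent.UBD

open Pool.Agent.HGP (Ix Simil)

noncomputable section

namespace LIEB_

attribute [local instance] Matrix.linftyOpNormedRing Matrix.linftyOpNormedAlgebra

variable {r : ℕ} {g : Fin r → ℕ}

instance csM (k : ℕ) : CompleteSpace (Matrix (Ix k) (Ix k) ℂ) :=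
  FiniteDimensional.complete ℂ _

instance scM (k : ℕ) : SecondCountableTopology (Matrix (Ix k) (Ix k) ℂ) :=
  inferInstanceAs (SecondCountableTopology (Ix k → Ix k → ℂ))

/-- the point with given coordinates -/
def toPt (x : Crd g → ℂ) : Pt g :=
  (x none, fun i => Matrix.of fun a b => x (some ⟨i, (a, b)⟩))

lemma tpt_toPt (x : Crd g → ℂ) : HGP.tpt (toPt x).1 (toPt x).2 = x := by
  funext o
  rcases o with _ | ⟨i, a, b⟩
  · rfl
  · rfl

lemma toPt_tpt (a : Pt g) : toPt (HGP.tpt a.1 a.2) = a := by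
  rcases a with ⟨m, M⟩
  rfl

/-- the equations of the group -/
def eqn (w : Fin r → ℕ) (i : Fin r) (j k : Ix (g i)) : Pol g :=
  (∑ b, (∑ a, MvPolynomial.X (some ⟨i, (a, j)⟩) *
    MvPolynomial.C (Matrix.J (Fin (g i)) ℂ a b)) * MvPolynomial.X (some ⟨i, (b, k)⟩)) -
    MvPolynomial.X none ^ w i * MvPolynomial.C (Matrix.J (Fin (g i)) ℂ j k)

lemma ev_eqn (w : Fin r → ℕ) (i : Fin r) (j k : Ix (g i)) (a : Pt g) :
    ev (eqn w i j k) a = ((a.2 i).transpose * Matrix.J (Fin (g i)) ℂ * a.2 i) j k -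
      ((a.1 ^ w i) • Matrix.J (Fin (g i)) ℂ) j k := by
  unfold ev eqn
  rw [Matrix.mul_apply]
  simp only [map_sub, map_sum, map_mul, map_pow, MvPolynomial.eval_X, MvPolynomial.eval_C,
    HGP.tpt, Option.elim_some, Option.elim_none, Matrix.smul_apply, smul_eq_mul]
  congr 1

lemma ev_eqn_eq_zero {w : Fin r → ℕ} {a : Pt g} (h : InG w a) (i : Fin r) (j k : Ix (g i)) :
    ev (eqn w i j k) a = 0 := by
  rw [ev_eqn, sub_eq_zero]
  exact congrFun (congrFun (h.2 i) j) k

/-- a point in the Zariski closure -/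
lemma mem_of_zero {w : Fin r → ℕ} {H : Set (Pt g)} (hH : GrpS w H) {a : Pt g} (h1 : a.1 ≠ 0)
    (h : ∀ P : Pol g, (∀ h ∈ H, ev P h = 0) → ev P a = 0) : a ∈ H := by
  refine hH.closed a ⟨h1, fun i => ?_⟩ h
  have h2 : ∀ j k : Ix (g i), ev (eqn w i j k) a = 0 := fun j k =>
    h _ fun b hb => ev_eqn_eq_zero (hH.sub b hb) i j k
  show (a.2 i).transpose * Matrix.J (Fin (g i)) ℂ * a.2 i = (a.1 ^ w i) • Matrix.J (Fin (g i)) ℂ
  ext j k
  have := h2 j k
  rw [ev_eqn, sub_eq_zero] at this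
  exact this

lemma not_countable (h1 : Stmt_UNC) {w : Fin r → ℕ} {H : Set (Pt g)} (hH : GrpS w H)
    (hinf : ¬ H.Finite) : ¬ H.Countable := by
  intro hc
  apply hinf
  set V : Set (Crd g → ℂ) := {x | (∀ P ∈ {P : Pol g | ∀ h ∈ H, ev P h = 0},
    MvPolynomial.eval x P = 0) ∧ MvPolynomial.eval x (MvPolynomial.X none : Pol g) ≠ 0} with hV
  have e : ∀ x, x ∈ V ↔ toPt x ∈ H := by
    intro x
    constructor
    · rintro ⟨h2, h3⟩
      rw [MvPolynomial.eval_X] at h3
      refine mem_of_zero hH h3 fun P hP => ?_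
      have := h2 P hP
      unfold ev
      rw [tpt_toPt]
      exact this
    · intro hx
      refine ⟨fun P hP => ?_, ?_⟩
      · have := hP _ hx
        unfold ev at this
        rw [tpt_toPt] at this
        exact this
      · rw [MvPolynomial.eval_X]
        exact (hH.sub _ hx).1
  have hinj : Function.Injective (fun a : Pt g => (HGP.tpt a.1 a.2 : Crd g → ℂ)) := by
    intro a b hab
    have := congrArg toPt hab
    simp only [toPt_tpt] at this
    exact this
  have hVe : V = (fun a : Pt g => (HGP.tpt a.1 a.2 : Crd g → ℂ)) '' H := by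
    ext x
    rw [e]
    constructor
    · intro hx
      exact ⟨_, hx, tpt_toPt x⟩
    · rintro ⟨a, ha, rfl⟩
      simp only [toPt_tpt]
      exact ha
  have hVc : V.Countable := by
    rw [hVe]
    exact hc.image _
  have hVf : V.Finite := h1 (Crd g) {P : Pol g | ∀ h ∈ H, ev P h = 0}
    (MvPolynomial.X none) hVc
  rw [hVe] at hVf
  exact hVf.of_finite_image hinj.injOn

lemma map_exp_aux {A B : Type} [NormedRing A] [NormedAlgebra ℂ A] [FiniteDimensional ℂ A]
    [NormedRing B] [NormedAlgebra ℂ B] (f : A →+* B) (hf : Continuous f) (x : A) :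
    f (NormedSpace.exp x) = NormedSpace.exp (f x) := by
  let _ : NormedAlgebra ℚ A := NormedAlgebra.restrictScalars ℚ ℂ A
  let _ : NormedAlgebra ℚ B := NormedAlgebra.restrictScalars ℚ ℂ B
  have : CompleteSpace A := FiniteDimensional.complete ℂ A
  exact NormedSpace.map_exp f hf x

lemma ex_eq (t : ℂ) (X : Pt g) : ex t X = NormedSpace.exp (t • X) := by
  refine Prod.ext ?_ ?_
  · show Complex.exp (t * X.1) = _
    have := map_exp_aux (RingHom.fst ℂ (∀ i, Matrix (Ix (g i)) (Ix (g i)) ℂ))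
      continuous_fst (t • X)
    rw [Complex.exp_eq_exp_ℂ]
    exact this.symm
  · funext i
    have h := map_exp_aux ((Pi.evalRingHom (fun i => Matrix (Ix (g i)) (Ix (g i)) ℂ) i).comp
      (RingHom.snd ℂ (∀ i, Matrix (Ix (g i)) (Ix (g i)) ℂ)))
      ((continuous_apply i).comp continuous_snd) (t • X)
    exact h.symm

lemma ev_eq (P : Pol g) (a : Pt g) : ev P a = ∑ d ∈ P.support, P.coeff d *
    ∏ o, (HGP.tpt a.1 a.2 o) ^ d o := by
  unfold ev
  rw [MvPolynomial.eval_eq']

lemma tpt_cont (o : Crd g) : Continuous fun a : Pt g => HGP.tpt a.1 a.2 o := by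
  rcases o with _ | ⟨i, j, k⟩
  · exact continuous_fst
  · show Continuous fun a : Pt g => a.2 i j k
    exact ((continuous_apply i).comp continuous_snd).matrix_elem j k

lemma ev_cont (P : Pol g) : Continuous (ev P) := by
  have : ev P = fun a => ∑ d ∈ P.support, P.coeff d * ∏ o, (HGP.tpt a.1 a.2 o) ^ d o :=
    funext fun a => ev_eq P a
  rw [this]
  refine continuous_finsetSum _ fun d _ => continuous_const.mul ?_
  exact continuous_finsetProd _ fun o _ => (tpt_cont o).pow _

lemma tpt_diff (X : Pt g) (o : Crd g) :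
    Differentiable ℂ fun t : ℂ => HGP.tpt (ex t X).1 (ex t X).2 o := by
  rcases o with _ | ⟨i, j, k⟩
  · show Differentiable ℂ fun t : ℂ => Complex.exp (t * X.1)
    exact (differentiable_id.mul_const _).cexp
  · show Differentiable ℂ fun t : ℂ => (NormedSpace.exp (t • X.2 i)) j k
    have h1 : Differentiable ℂ fun t : ℂ => NormedSpace.exp (t • X.2 i) := fun t =>
      (hasDerivAt_exp_smul_const (X.2 i) t).differentiableAt
    have h2 : Differentiable ℂ fun M : Matrix (Ix (g i)) (Ix (g i)) ℂ => M j k := by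
      have := (LinearMap.toContinuousLinearMap
        (Matrix.entryLinearMap ℂ ℂ j k : Matrix (Ix (g i)) (Ix (g i)) ℂ →ₗ[ℂ] ℂ)).differentiable
      exact this
    exact h2.comp h1

lemma ev_diff (P : Pol g) (X : Pt g) : Differentiable ℂ fun t : ℂ => ev P (ex t X) := by
  have : (fun t : ℂ => ev P (ex t X)) = fun t => ∑ d ∈ P.support, P.coeff d *
      ∏ o, (HGP.tpt (ex t X).1 (ex t X).2 o) ^ d o :=
    funext fun t => ev_eq P _
  rw [this]
  refine Differentiable.fun_sum fun d _ => Differentiable.const_mul ?_ _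
  have h2 : ∀ s : Finset (Crd g), Differentiable ℂ
      (fun t : ℂ => ∏ o ∈ s, (HGP.tpt (ex t X).1 (ex t X).2 o) ^ d o) := by
    intro s
    classical
    induction s using Finset.induction_on with
    | empty =>
      simp only [Finset.prod_empty]
      exact differentiable_const _
    | insert a s ha ih =>
      simp only [Finset.prod_insert ha]
      exact ((tpt_diff X a).fun_pow _).fun_mul ih
  exact h2 Finset.univ

lemma entire_zero {f : ℂ → ℂ} (hf : Differentiable ℂ f) (h : ∀ t : ℝ, 0 ≤ t → f t = 0)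
    (t : ℂ) : f t = 0 := by
  have h1 : AnalyticOnNhd ℂ f Set.univ := fun z _ => hf.analyticAt z
  have h2 : Tendsto (fun n : ℕ => ((1 / ((n : ℝ) + 1) : ℝ) : ℂ)) atTop (𝓝[≠] (0 : ℂ)) := by
    refine tendsto_nhdsWithin_iff.2 ⟨?_, Eventually.of_forall fun n => ?_⟩
    · have := tendsto_one_div_add_atTop_nhds_zero_nat (𝕜 := ℝ)
      have h3 := (Complex.continuous_ofReal.tendsto 0).comp this
      simpa [Function.comp_def] using h3
    · have : (1 / ((n : ℝ) + 1) : ℝ) ≠ 0 := by positivity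
      exact Complex.ofReal_ne_zero.2 this
  have h3 : ∃ᶠ z in 𝓝[≠] (0 : ℂ), f z = 0 :=
    h2.frequently (Frequently.of_forall fun n => h _ (by positivity))
  exact h1.eqOn_zero_of_preconnected_of_frequently_eq_zero isPreconnected_univ
    (Set.mem_univ 0) h3 (Set.mem_univ t)

end LIEB_

open LIEB_ in
attribute [local instance] Matrix.linftyOpNormedRing Matrix.linftyOpNormedAlgebra in
theorem lieb_proof (h1 : Stmt_UNC) (h2 : Stmt_ONEP) : Stmt_LIEB := by
  intro r g w H hH hinf
  have hnc := not_countable h1 hH hinf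
  have hnd : ¬ IsDiscrete H := fun h =>
    hnc ((HereditarilyLindelofSpace.isLindelof _).countable_of_isDiscrete h)
  rw [isDiscrete_iff_nhdsNE] at hnd
  push Not at hnd
  obtain ⟨h₀, hh₀, hacc⟩ := hnd
  obtain ⟨k, hk, hk1, hk2⟩ := hH.inv h₀ hh₀
  have hclose : ∀ ε : ℝ, 0 < ε → ∃ h ∈ H, h ≠ 1 ∧ ‖h - 1‖ < ε := by
    intro ε hε
    have hcont : Continuous fun h : Pt g => ‖k * h - 1‖ := by fun_prop
    have hev : ∀ᶠ h in 𝓝 h₀, ‖k * h - 1‖ < ε := by
      refine hcont.continuousAt.eventually_lt continuousAt_const ?_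
      show ‖k * h₀ - 1‖ < ε
      rw [hk2, sub_self, norm_zero]
      exact hε
    have hne : (𝓝[≠] h₀ ⊓ 𝓟 H).NeBot := hacc
    have hev2 : ∀ᶠ h in 𝓝[≠] h₀ ⊓ 𝓟 H, ‖k * h - 1‖ < ε ∧ h ≠ h₀ ∧ h ∈ H := by
      have e1 : ∀ᶠ h in 𝓝[≠] h₀ ⊓ 𝓟 H, ‖k * h - 1‖ < ε :=
        (hev.filter_mono nhdsWithin_le_nhds).filter_mono inf_le_left
      have e2 : ∀ᶠ h in 𝓝[≠] h₀ ⊓ 𝓟 H, h ≠ h₀ :=
        Eventually.filter_mono inf_le_left (eventually_mem_nhdsWithin)
      have e3 : ∀ᶠ h in 𝓝[≠] h₀ ⊓ 𝓟 H, h ∈ H :=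
        Eventually.filter_mono inf_le_right (mem_principal_self H)
      filter_upwards [e1, e2, e3] with h a1 a2 a3
      exact ⟨a1, a2, a3⟩
    obtain ⟨h, a1, a2, a3⟩ := hev2.exists
    refine ⟨k * h, hH.mul k hk h a3, ?_, a1⟩
    intro hh
    apply a2
    calc h = (h₀ * k) * h := by rw [hk1, one_mul]
      _ = h₀ * (k * h) := by rw [mul_assoc]
      _ = h₀ := by rw [hh, mul_one]
  obtain ⟨X, hX, hcl⟩ := h2 (Pt g) H hH.one hH.mul hclose
  refine ⟨X, fun t => ?_, hX⟩
  refine mem_of_zero hH (Complex.exp_ne_zero _) fun P hP => ?_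
  refine entire_zero (ev_diff P X) (fun s hs => ?_) t
  have h3 : ex s X ∈ closure H := by
    rw [ex_eq]
    exact hcl s hs
  have h4 : closure H ⊆ {a | ev P a = 0} :=
    closure_minimal hP (isClosed_eq (ev_cont P) continuous_const)
  exact h4 h3

end

end Pool.Agent.UBD
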