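import Pool.Agent.UBD.Stmts

set_option autoImplicit false

/-!
# UBD, module ONEP: one-parameter groups in the closure of a multiplicative set
-/

open scoped BigOperators Topology
open Filter

namespace Pool.Agent.UBD

noncomputable section

namespace ONEP_

variable (A : Type) [NormedRing A] [NormedAlgebra ℂ A] [FiniteDimensional ℂ A]

theorem exp_surj (ε : ℝ) (hε : 0 < ε) : ∃ δ : ℝ, 0 < δ ∧ ∀ y : A, ‖y - 1‖ < δ →
    ∃ x : A, ‖x‖ < ε ∧ NormedSpace.exp x = y := by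
  have : CompleteSpace A := FiniteDimensional.complete ℂ A
  have h1 : HasStrictFDerivAt (NormedSpace.exp : A → A) (1 : A →L[ℂ] A) 0 :=
    hasStrictFDerivAt_exp_zero
  have h2 : map (NormedSpace.exp : A → A) (𝓝 0) = 𝓝 (NormedSpace.exp (0 : A)) :=
    h1.map_nhds_eq_of_surj (by
      rw [LinearMap.range_eq_top]
      intro y
      exact ⟨y, rfl⟩)
  rw [NormedSpace.exp_zero] at h2
  have h3 : (NormedSpace.exp : A → A) '' (Metric.ball 0 ε) ∈ 𝓝 (1 : A) := by
    rw [← h2]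
    exact image_mem_map (Metric.ball_mem_nhds _ hε)
  obtain ⟨δ, hδ, hb⟩ := Metric.mem_nhds_iff.1 h3
  refine ⟨δ, hδ, fun y hy => ?_⟩
  have h4 : y ∈ Metric.ball (1 : A) δ := by
    rw [Metric.mem_ball, dist_eq_norm]
    exact hy
  obtain ⟨x, hx, hxy⟩ := hb h4
  refine ⟨x, ?_, hxy⟩
  rwa [Metric.mem_ball, dist_eq_norm, sub_zero] at hx

theorem exp_cont : Continuous (NormedSpace.exp : A → A) := by
  have : CompleteSpace A := FiniteDimensional.complete ℂ A
  let _ : NormedAlgebra ℚ A := NormedAlgebra.restrictScalars ℚ ℂ A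
  exact NormedSpace.exp_continuous

theorem exp_pow (n : ℕ) (x : A) : NormedSpace.exp (n • x) = NormedSpace.exp x ^ n := by
  have : CompleteSpace A := FiniteDimensional.complete ℂ A
  let _ : NormedAlgebra ℚ A := NormedAlgebra.restrictScalars ℚ ℂ A
  exact NormedSpace.exp_nsmul n x

end ONEP_

open ONEP_ in
theorem onep_proof : Stmt_ONEP := by
  intro A _ _ _ H h1 hmul hacc
  have : CompleteSpace A := FiniteDimensional.complete ℂ A
  have : ProperSpace A := FiniteDimensional.proper ℂ A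
  have hseq : ∀ k : ℕ, ∃ x : A, x ≠ 0 ∧ ‖x‖ < 1 / ((k : ℝ) + 1) ∧ NormedSpace.exp x ∈ H := by
    intro k
    obtain ⟨δ, hδ, hd⟩ := exp_surj A (1 / ((k : ℝ) + 1)) (by positivity)
    obtain ⟨h, hH, hne, hlt⟩ := hacc δ hδ
    obtain ⟨x, hx, hxh⟩ := hd h hlt
    refine ⟨x, ?_, hx, by rw [hxh]; exact hH⟩
    rintro rfl
    rw [NormedSpace.exp_zero] at hxh
    exact hne hxh.symm
  choose X hX0 hXlt hXH using hseq
  have hpow : ∀ (a : A), a ∈ H → ∀ n : ℕ, a ^ n ∈ H := by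
    intro a ha n
    induction n with
    | zero => rw [pow_zero]; exact h1
    | succ n ih => rw [pow_succ]; exact hmul _ ih _ ha
  have hXpos : ∀ k, 0 < ‖X k‖ := fun k => norm_pos_iff.2 (hX0 k)
  have hX0' : Tendsto (fun k => ‖X k‖) atTop (𝓝 0) :=
    squeeze_zero (fun k => norm_nonneg _) (fun k => (hXlt k).le) tendsto_one_div_add_atTop_nhds_zero_nat
  let u : ℕ → A := fun k => ((‖X k‖⁻¹ : ℝ) : ℂ) • X k
  have hu : ∀ k, u k ∈ Metric.sphere (0 : A) 1 := by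
    intro k
    rw [mem_sphere_zero_iff_norm]
    show ‖((‖X k‖⁻¹ : ℝ) : ℂ) • X k‖ = 1
    rw [norm_smul, Complex.norm_real, norm_inv, norm_norm, inv_mul_cancel₀ (hXpos k).ne']
  obtain ⟨a, ha, φ, hφ, hlim⟩ := (isCompact_sphere (0 : A) 1).tendsto_subseq hu
  rw [mem_sphere_zero_iff_norm] at ha
  refine ⟨a, fun h => by rw [h, norm_zero] at ha; exact zero_ne_one ha, fun t ht => ?_⟩
  let m : ℕ → ℕ := fun k => ⌊t / ‖X (φ k)‖⌋₊
  have hm : Tendsto (fun k => ((m k : ℝ) * ‖X (φ k)‖)) atTop (𝓝 t) := by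
    have hsub : Tendsto (fun k => ‖X (φ k)‖) atTop (𝓝 0) := hX0'.comp hφ.tendsto_atTop
    have h2 : Tendsto (fun k => t - ‖X (φ k)‖) atTop (𝓝 t) := by
      simpa using (tendsto_const_nhds (x := t)).sub hsub
    refine tendsto_of_tendsto_of_tendsto_of_le_of_le h2 tendsto_const_nhds (fun k => ?_) (fun k => ?_)
    · have hp := hXpos (φ k)
      have h3 := Nat.lt_floor_add_one (t / ‖X (φ k)‖)
      rw [div_lt_iff₀ hp] at h3
      show t - ‖X (φ k)‖ ≤ (m k : ℝ) * ‖X (φ k)‖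
      have h4 : ((m k : ℝ) + 1) * ‖X (φ k)‖ = (m k : ℝ) * ‖X (φ k)‖ + ‖X (φ k)‖ := by ring
      have h5 : t < ((m k : ℝ) + 1) * ‖X (φ k)‖ := h3
      linarith
    · have hp := hXpos (φ k)
      have h3 := Nat.floor_le (show 0 ≤ t / ‖X (φ k)‖ by positivity)
      show (m k : ℝ) * ‖X (φ k)‖ ≤ t
      rwa [le_div_iff₀ hp] at h3
  have hprod : Tendsto (fun k => ((((m k : ℝ) * ‖X (φ k)‖ : ℝ)) : ℂ) • u (φ k)) atTop
      (𝓝 ((t : ℂ) • a)) :=
    ((Complex.continuous_ofReal.tendsto t).comp hm).smul hlim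
  have heq : ∀ k, ((((m k : ℝ) * ‖X (φ k)‖ : ℝ)) : ℂ) • u (φ k) = (m k) • X (φ k) := by
    intro k
    show ((((m k : ℝ) * ‖X (φ k)‖ : ℝ)) : ℂ) • (((‖X (φ k)‖⁻¹ : ℝ) : ℂ) • X (φ k)) = _
    rw [smul_smul, ← Complex.ofReal_mul, mul_assoc, mul_inv_cancel₀ (hXpos (φ k)).ne', mul_one,
      Complex.ofReal_natCast, Nat.cast_smul_eq_nsmul]
  have hexp : Tendsto (fun k => NormedSpace.exp ((m k) • X (φ k))) atTop
      (𝓝 (NormedSpace.exp ((t : ℂ) • a))) := by
    have h3 := (exp_cont A).tendsto ((t : ℂ) • a)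
    have h4 := h3.comp hprod
    refine h4.congr fun k => ?_
    exact congrArg NormedSpace.exp (heq k)
  refine mem_closure_of_tendsto hexp (Eventually.of_forall fun k => ?_)
  rw [exp_pow]
  exact hpow _ (hXH (φ k)) _

end

end Pool.Agent.UBD
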