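import Pool.Agent.UBD.Stmts
import Pool.Agent.HGP.GEN

set_option autoImplicit false

/-! # UBD: module RED -/

open scoped BigOperators

namespace Pool.Agent.UBD

open Pool.Agent.HGP (Ix Simil)

namespace RED_

noncomputable section

variable {r : ℕ} {g : Fin r → ℕ}

/-! ### the diagonal similitudes -/

/-- the diagonal similitude -/
def dd (k : ℕ) (c : ℂ) : Matrix (Ix k) (Ix k) ℂ := Matrix.fromBlocks 1 0 0 (c • 1)

theorem dd_one (k : ℕ) : dd k 1 = 1 := by
  unfold dd
  rw [one_smul, Matrix.fromBlocks_one]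

theorem dd_mul (k : ℕ) (c c' : ℂ) : dd k (c * c') = dd k c * dd k c' := by
  unfold dd
  rw [Matrix.fromBlocks_multiply]
  simp [smul_smul, mul_comm]

theorem dd_simil (k : ℕ) (c : ℂ) : Simil c (dd k c) := by
  unfold Simil dd Matrix.J
  rw [Matrix.fromBlocks_transpose, Matrix.fromBlocks_multiply, Matrix.fromBlocks_multiply,
    Matrix.fromBlocks_smul]
  simp

theorem simil_mul {k : ℕ} {c c' : ℂ} {M M' : Matrix (Ix k) (Ix k) ℂ} (h : Simil c M)
    (h' : Simil c' M') : Simil (c * c') (M * M') := by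
  unfold Simil at *
  calc (M * M').transpose * Matrix.J (Fin k) ℂ * (M * M')
      = M'.transpose * (M.transpose * Matrix.J (Fin k) ℂ * M) * M' := by
        rw [Matrix.transpose_mul]
        simp only [Matrix.mul_assoc]
    _ = (c * c') • Matrix.J (Fin k) ℂ := by
        rw [h, Matrix.mul_smul, Matrix.smul_mul, h', smul_smul]

/-- the entries of `dd` as polynomials -/
def ddP (i : Fin r) (n : ℕ) (j l : Ix (g i)) : Pol g :=
  match j, l with
  | Sum.inl a, Sum.inl b => if a = b then 1 else 0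
  | Sum.inl _, Sum.inr _ => 0
  | Sum.inr _, Sum.inl _ => 0
  | Sum.inr a, Sum.inr b => if a = b then MvPolynomial.X none ^ n else 0

theorem ev_ddP (i : Fin r) (n : ℕ) (j l : Ix (g i)) (a : Pt g) :
    ev (ddP i n j l) a = dd (g i) (a.1 ^ n) j l := by
  unfold ev ddP dd
  rcases j with j | j <;> rcases l with l | l
  · simp only [Matrix.fromBlocks_apply₁₁, Matrix.one_apply]
    split_ifs <;> simp
  · simp
  · simp
  · simp only [Matrix.fromBlocks_apply₂₂, Matrix.smul_apply, Matrix.one_apply]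
    split_ifs <;> simp [HGP.tpt]

theorem ev_sub (P Q : Pol g) (a : Pt g) : ev (P - Q) a = ev P a - ev Q a := map_sub _ _ _

theorem ev_X_some (i : Fin r) (j l : Ix (g i)) (a : Pt g) :
    ev (MvPolynomial.X (some ⟨i, (j, l)⟩)) a = a.2 i j l := by
  simp [ev, HGP.tpt]

theorem ev_X_none (a : Pt g) : ev (MvPolynomial.X none) a = a.1 := by
  simp [ev, HGP.tpt]

theorem ev_C (c : ℂ) (a : Pt g) : ev (MvPolynomial.C c) a = c := by
  simp [ev]

/-! ### the subgroups -/

/-- elements with diagonal components in `T` -/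
def H2 (w : Fin r → ℕ) (T : Set (Fin r)) (H : Set (Pt g)) : Set (Pt g) :=
  {h | h ∈ H ∧ ∀ i ∈ T, h.2 i = dd (g i) (h.1 ^ w i)}

/-- elements of multiplier one -/
def H1 (H : Set (Pt g)) : Set (Pt g) := {h | h ∈ H ∧ h.1 = 1}

theorem grpS_H2 {w : Fin r → ℕ} {H : Set (Pt g)} (hG : GrpS w H) (T : Set (Fin r)) :
    GrpS w (H2 w T H) where
  sub := fun a ha => hG.sub a ha.1
  one := ⟨hG.one, fun i _ => by
    show (1 : Matrix (Ix (g i)) (Ix (g i)) ℂ) = dd (g i) ((1 : ℂ) ^ w i)
    rw [one_pow, dd_one]⟩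
  mul := fun a ha b hb => ⟨hG.mul a ha.1 b hb.1, fun i hi => by
    show a.2 i * b.2 i = dd (g i) ((a.1 * b.1) ^ w i)
    rw [ha.2 i hi, hb.2 i hi, mul_pow, dd_mul]⟩
  inv := fun a ha => by
    obtain ⟨b, hb, h1, h2⟩ := hG.inv a ha.1
    refine ⟨b, ⟨hb, fun i hi => ?_⟩, h1, h2⟩
    have e1 : a.1 * b.1 = 1 := congrArg Prod.fst h1
    have e2 : b.2 i * a.2 i = 1 := congrFun (congrArg Prod.snd h2) i
    have e3 : dd (g i) (a.1 ^ w i) * dd (g i) (b.1 ^ w i) = 1 := by
      rw [← dd_mul, ← mul_pow, e1, one_pow, dd_one]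
    calc b.2 i = b.2 i * (dd (g i) (a.1 ^ w i) * dd (g i) (b.1 ^ w i)) := by rw [e3, mul_one]
      _ = (b.2 i * a.2 i) * dd (g i) (b.1 ^ w i) := by rw [ha.2 i hi, mul_assoc]
      _ = dd (g i) (b.1 ^ w i) := by rw [e2, one_mul]
  closed := fun a haG hP => by
    refine ⟨hG.closed a haG (fun P h => hP P (fun x hx => h x hx.1)), fun i hi => ?_⟩
    ext j l
    have h := hP (MvPolynomial.X (some ⟨i, (j, l)⟩) - ddP i (w i) j l) (fun x hx => by
      rw [ev_sub, ev_X_some, ev_ddP, hx.2 i hi, sub_self])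
    rw [ev_sub, ev_X_some, ev_ddP] at h
    exact sub_eq_zero.1 h

theorem grpS_H1 {w : Fin r → ℕ} {H : Set (Pt g)} (hG : GrpS w H) : GrpS w (H1 H) where
  sub := fun a ha => hG.sub a ha.1
  one := ⟨hG.one, rfl⟩
  mul := fun a ha b hb => ⟨hG.mul a ha.1 b hb.1, by
    show a.1 * b.1 = 1
    rw [ha.2, hb.2, mul_one]⟩
  inv := fun a ha => by
    obtain ⟨b, hb, h1, h2⟩ := hG.inv a ha.1
    have e1 : a.1 * b.1 = 1 := congrArg Prod.fst h1
    rw [ha.2, one_mul] at e1
    exact ⟨b, ⟨hb, e1⟩, h1, h2⟩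
  closed := fun a haG hP => by
    refine ⟨hG.closed a haG (fun P h => hP P (fun x hx => h x hx.1)), ?_⟩
    have h := hP (MvPolynomial.X none - MvPolynomial.C 1) (fun x hx => by
      rw [ev_sub, ev_X_none, ev_C, hx.2, sub_self])
    rw [ev_sub, ev_X_none, ev_C] at h
    exact sub_eq_zero.1 h

/-! ### one-parameter groups -/

section exp

variable {n : Type} [Fintype n] [DecidableEq n]

attribute [local instance] Matrix.linftyOpNormedRing Matrix.linftyOpNormedAlgebra

theorem exp_cont (M : Matrix n n ℂ) : Continuous fun t : ℂ => NormedSpace.exp (t • M) := by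
  let _ : NormedAlgebra ℚ (Matrix n n ℂ) := NormedAlgebra.restrictScalars ℚ ℂ _
  exact NormedSpace.exp_continuous.comp (continuous_id.smul continuous_const)

theorem eq_zero_of_exp (M : Matrix n n ℂ)
    (h : ∀ t : ℂ, NormedSpace.exp (t • M) = (1 : Matrix n n ℂ)) : M = 0 := by
  have h1 := hasDerivAt_exp_smul_const (𝕂 := ℂ) M (0 : ℂ)
  have h2 : HasDerivAt (fun _ : ℂ => (1 : Matrix n n ℂ)) (NormedSpace.exp ((0 : ℂ) • M) * M) 0 :=
    h1.congr_of_eventuallyEq (Filter.Eventually.of_forall fun u => (h u).symm)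
  have h3 := h2.unique (hasDerivAt_const (0 : ℂ) (1 : Matrix n n ℂ))
  rwa [h 0, one_mul] at h3

theorem exp_smul_one (x : ℂ) : NormedSpace.exp (x • (1 : Matrix n n ℂ)) =
    Complex.exp x • (1 : Matrix n n ℂ) := by
  have h1 : x • (1 : Matrix n n ℂ) = Matrix.diagonal fun _ => x := by
    rw [Matrix.smul_one_eq_diagonal]
  have h2 : Complex.exp x • (1 : Matrix n n ℂ) = Matrix.diagonal fun _ => Complex.exp x := by
    rw [Matrix.smul_one_eq_diagonal]
  rw [h1, h2, Matrix.exp_diagonal]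
  congr 1
  funext i
  rw [Pi.coe_exp, ← Complex.exp_eq_exp_ℂ]

end exp

theorem ex_zero (X : Pt g) : ex 0 X = 1 := by
  unfold ex
  refine Prod.ext ?_ (funext fun i => ?_)
  · simp
  · show NormedSpace.exp ((0 : ℂ) • X.2 i) = 1
    rw [zero_smul, NormedSpace.exp_zero]

theorem ex_add (s t : ℂ) (X : Pt g) : ex (s + t) X = ex s X * ex t X := by
  unfold ex
  refine Prod.ext ?_ (funext fun i => ?_)
  · show Complex.exp ((s + t) * X.1) = Complex.exp (s * X.1) * Complex.exp (t * X.1)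
    rw [add_mul, Complex.exp_add]
  · show NormedSpace.exp ((s + t) • X.2 i) = NormedSpace.exp (s • X.2 i) * NormedSpace.exp (t • X.2 i)
    rw [add_smul, Matrix.exp_add_of_commute]
    exact ((Commute.refl (X.2 i)).smul_left s).smul_right t

theorem ex_cont (X : Pt g) : Continuous fun t : ℂ => ex t X := by
  unfold ex
  refine Continuous.prodMk (by fun_prop) (continuous_pi fun i => exp_cont (X.2 i))

/-! ### scalars -/

theorem czero {x : ℂ} (h : ∀ t : ℂ, Complex.exp (t * x) = 1) : x = 0 := by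
  by_contra hx
  have h1 := h (1 / x)
  rw [one_div, inv_mul_cancel₀ hx] at h1
  have h2 := congrArg norm h1
  rw [Complex.norm_exp, norm_one, Complex.one_re, Real.exp_eq_one_iff] at h2
  exact one_ne_zero h2

/-- a matrix which commutes with all `nv v` is scalar -/
theorem scalar_of_comm {k : ℕ} (X : Matrix (Ix k) (Ix k) ℂ)
    (h : ∀ v : Ix k → ℂ, X * nv v = nv v * X) : ∃ x : ℂ, X = x • 1 := by
  classical
  have key : ∀ v : Ix k → ℂ, v ≠ 0 → ∃ c : ℂ, X.mulVec v = c • v := by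
    intro v hv
    have hJ : (Matrix.J (Fin k) ℂ).mulVec v ≠ 0 := by
      intro h0
      apply hv
      have h1 : (Matrix.J (Fin k) ℂ * Matrix.J (Fin k) ℂ).mulVec v = 0 := by
        rw [← Matrix.mulVec_mulVec, h0, Matrix.mulVec_zero]
      rw [Matrix.J_squared, Matrix.neg_mulVec, Matrix.one_mulVec, neg_eq_zero] at h1
      exact h1
    obtain ⟨j, hj⟩ := Function.ne_iff.1 hJ
    have h1 := h v
    unfold nv at h1
    rw [Matrix.mul_vecMulVec, Matrix.vecMulVec_mul] at h1
    refine ⟨Matrix.vecMul ((Matrix.J (Fin k) ℂ).mulVec v) X j /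
      (Matrix.J (Fin k) ℂ).mulVec v j, ?_⟩
    funext i
    have h2 := congrFun (congrFun h1 i) j
    rw [Matrix.vecMulVec_apply, Matrix.vecMulVec_apply] at h2
    rw [Pi.smul_apply, smul_eq_mul, div_mul_eq_mul_div, eq_div_iff hj, h2]
    ring
  rcases isEmpty_or_nonempty (Ix k) with he | ⟨⟨i0⟩⟩
  · exact ⟨0, by ext i; exact he.elim i⟩
  refine ⟨X i0 i0, ?_⟩
  have hcol : ∀ i j, j ≠ i → X j i = 0 := by
    intro i j hji
    obtain ⟨c, hc⟩ := key (Pi.single i 1) (by
      intro h0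
      have := congrFun h0 i
      simp at this)
    have h1 := congrFun hc j
    rw [Matrix.mulVec_single_one, Pi.smul_apply, Pi.single_apply, if_neg hji, smul_zero] at h1
    exact h1
  have hdiag : ∀ i, X i i = X i0 i0 := by
    intro i
    by_cases hi : i = i0
    · rw [hi]
    obtain ⟨c, hc⟩ := key (Pi.single i 1 + Pi.single i0 1) (by
      intro h0
      have := congrFun h0 i
      simp [Pi.single_apply, hi] at this)
    have h1 := congrFun hc i
    have h2 := congrFun hc i0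
    rw [Matrix.mulVec_add, Matrix.mulVec_single_one, Matrix.mulVec_single_one] at h1 h2
    have h1' : X i i = c := by
      simpa [Pi.single_apply, hi, hcol i0 i hi] using h1
    have h2' : X i0 i0 = c := by
      simpa [Pi.single_apply, Ne.symm hi, hcol i i0 (Ne.symm hi)] using h2
    rw [h1', h2']
  ext i j
  rw [Matrix.smul_apply, Matrix.one_apply]
  split_ifs with hij
  · rw [← hij, hdiag i, smul_eq_mul, mul_one]
  · rw [smul_zero]
    exact hcol j i hij

theorem simil_one (k : ℕ) : Simil 1 (1 : Matrix (Ix k) (Ix k) ℂ) := by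
  unfold Simil
  simp

theorem simil_nv {k : ℕ} (v : Ix k → ℂ) : Simil 1 (1 + nv v) := by
  have h := HGP.GEN_.simil_tv v 1
  unfold HGP.tv at h
  rwa [one_smul] at h

end

end RED_

open RED_ in
theorem red_proof (h1 : Stmt_LIEB) (h2 : Stmt_ADJ) (h3 : Stmt_FUL) : Stmt_RED := by
  intro r g w H hG hD hInf T hT hLie i₀ hi₀
  classical
  have g2 : GrpS w (H2 w T H) := grpS_H2 hG T
  have g1 : GrpS w (H1 (H2 w T H)) := grpS_H1 g2
  -- normalisation
  have norm : ∀ h ∈ H, ∃ h' ∈ H2 w T H, h'.1 = h.1 ∧ ∀ i, i ∉ T → h'.2 i = h.2 i := by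
    intro h hh
    obtain ⟨b, hb, e1, e2⟩ := hG.inv h hh
    have e1' : ∀ i, h.2 i * b.2 i = 1 := fun i => congrFun (congrArg Prod.snd e1) i
    have e2' : b.1 * h.1 = 1 := congrArg Prod.fst e2
    let k : Pt g := (1, fun i => if i ∈ T then b.2 i * dd (g i) (h.1 ^ w i) else 1)
    have hk : k ∈ H := by
      refine h3 r g w H hG T hT k rfl ?_ ?_
      · intro i
        show Simil 1 (if i ∈ T then b.2 i * dd (g i) (h.1 ^ w i) else 1)
        split_ifs with hi
        · have e3 := simil_mul ((hG.sub b hb).2 i) (dd_simil (g i) (h.1 ^ w i))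
          rwa [← mul_pow, e2', one_pow] at e3
        · exact simil_one _
      · intro i hi
        show (if i ∈ T then b.2 i * dd (g i) (h.1 ^ w i) else 1) = 1
        rw [if_neg hi]
    refine ⟨h * k, ⟨hG.mul h hh k hk, ?_⟩, ?_, ?_⟩
    · intro i hi
      show h.2 i * (if i ∈ T then b.2 i * dd (g i) (h.1 ^ w i) else 1) =
        dd (g i) ((h.1 * 1) ^ w i)
      rw [if_pos hi, ← mul_assoc, e1' i, one_mul, mul_one]
    · show h.1 * 1 = h.1
      rw [mul_one]
    · intro i hi
      show h.2 i * (if i ∈ T then b.2 i * dd (g i) (h.1 ^ w i) else 1) = h.2 i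
      rw [if_neg hi, mul_one]
  -- the Lie algebra of H1 is zero
  have lie0 : ∀ X ∈ Lie (H2 w T H), X.1 = 0 → X = 0 := by
    intro X hX hX1
    refine Prod.ext hX1 (funext fun i => ?_)
    by_cases hi : i ∈ T
    · apply eq_zero_of_exp
      intro t
      have h4 := (hX t).2 i hi
      have h5 : (ex t X).1 = 1 := by
        show Complex.exp (t * X.1) = 1
        rw [hX1, mul_zero, Complex.exp_zero]
      rw [h5, one_pow, dd_one] at h4
      exact h4
    · exact hLie X (fun t => (hX t).1) hX1 i hi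
  have lie1 : ∀ X ∈ Lie (H1 (H2 w T H)), X = 0 := fun X hX =>
    lie0 X (fun t => (hX t).1) (czero fun t => (hX t).2)
  have fin1 : (H1 (H2 w T H)).Finite := by
    by_contra hn
    obtain ⟨X, hX, hX0⟩ := h1 r g w _ g1 hn
    exact hX0 (lie1 X hX)
  have inf2 : ¬ (H2 w T H).Finite := by
    intro hf
    apply hInf
    refine (hf.image Prod.fst).subset ?_
    rintro x ⟨h, hh, rfl⟩
    obtain ⟨h', hh', e1, -⟩ := norm h hh
    exact ⟨h', hh', e1⟩
  obtain ⟨X, hX, hX0⟩ := h1 r g w _ g2 inf2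
  have hX1 : X.1 ≠ 0 := fun h0 => hX0 (lie0 X hX h0)
  -- X commutes with H2
  have comm2 : ∀ h ∈ H2 w T H, h * X = X * h := by
    intro h hh
    obtain ⟨b, hb, e1, e2⟩ := g2.inv h hh
    apply (h2 r g w H hG).2.2 X h
    have hmem : ∀ t : ℂ, h * ex t X * b * ex (-t) X ∈ H1 (H2 w T H) := by
      intro t
      refine ⟨g2.mul _ (g2.mul _ (g2.mul _ hh _ (hX t)) _ hb) _ (hX (-t)), ?_⟩
      show h.1 * Complex.exp (t * X.1) * b.1 * Complex.exp (-t * X.1) = 1
      have e3 : h.1 * b.1 = 1 := congrArg Prod.fst e1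
      have e4 : Complex.exp (t * X.1) * Complex.exp (-t * X.1) = 1 := by
        rw [← Complex.exp_add, ← add_mul, add_neg_cancel, zero_mul, Complex.exp_zero]
      linear_combination (Complex.exp (t * X.1) * Complex.exp (-t * X.1)) * e3 + e4
    have hcont : Continuous fun t : ℂ => h * ex t X * b * ex (-t) X :=
      ((continuous_const.mul (ex_cont X)).mul continuous_const).mul
        ((ex_cont X).comp continuous_neg)
    have hconst : ∀ t : ℂ, h * ex t X * b * ex (-t) X = 1 := by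
      intro t
      have h4 : h * ex t X * b * ex (-t) X = h * ex 0 X * b * ex (-0) X :=
        isPreconnected_univ.constant_of_mapsTo (T := H1 (H2 w T H)) fin1.isDiscrete
          hcont.continuousOn (fun t _ => hmem t) (Set.mem_univ t) (Set.mem_univ (0 : ℂ))
      rw [h4, neg_zero, ex_zero, mul_one, mul_one, e1]
    intro t
    have e5 : ex (-t) X * ex t X = 1 := by
      rw [← ex_add, neg_add_cancel, ex_zero]
    calc h * ex t X = h * ex t X * (b * h) := by rw [e2, mul_one]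
      _ = h * ex t X * b * (ex (-t) X * ex t X) * h := by rw [e5, mul_one, mul_assoc, mul_assoc,
          mul_assoc]
      _ = (h * ex t X * b * ex (-t) X) * (ex t X * h) := by simp only [mul_assoc]
      _ = ex t X * h := by rw [hconst t, one_mul]
  have commH : ∀ h ∈ H, h.2 i₀ * X.2 i₀ = X.2 i₀ * h.2 i₀ := by
    intro h hh
    obtain ⟨h', hh', -, e2⟩ := norm h hh
    have h4 := congrFun (congrArg Prod.snd (comm2 h' hh')) i₀
    have h5 : h'.2 i₀ * X.2 i₀ = X.2 i₀ * h'.2 i₀ := h4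
    rwa [e2 i₀ hi₀] at h5
  have commG : ∀ a, InG w a → a.2 i₀ * X.2 i₀ = X.2 i₀ * a.2 i₀ := by
    intro a ha
    ext j l
    let P : Pol g := ∑ m, (MvPolynomial.X (some ⟨i₀, (j, m)⟩) * MvPolynomial.C (X.2 i₀ m l) -
      MvPolynomial.C (X.2 i₀ j m) * MvPolynomial.X (some ⟨i₀, (m, l)⟩))
    have hev : ∀ b : Pt g, ev P b = (b.2 i₀ * X.2 i₀) j l - (X.2 i₀ * b.2 i₀) j l := by
      intro b
      rw [Matrix.mul_apply, Matrix.mul_apply, ← Finset.sum_sub_distrib]
      simp only [P, ev, map_sum, map_sub, map_mul, MvPolynomial.eval_X, MvPolynomial.eval_C]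
      rfl
    have hdeg : P.totalDegree ≤ 1 := by
      apply MvPolynomial.totalDegree_finsetSum_le
      intro m _
      refine (MvPolynomial.totalDegree_sub _ _).trans (max_le ?_ ?_)
      · refine (MvPolynomial.totalDegree_mul _ _).trans ?_
        rw [MvPolynomial.totalDegree_X, MvPolynomial.totalDegree_C]
      · refine (MvPolynomial.totalDegree_mul _ _).trans ?_
        rw [MvPolynomial.totalDegree_X, MvPolynomial.totalDegree_C]
    have h4 := hD P hdeg (fun h hh => by rw [hev, commH h hh, sub_self]) a ha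
    rw [hev] at h4
    exact sub_eq_zero.1 h4
  have commN : ∀ v : Ix (g i₀) → ℂ, X.2 i₀ * nv v = nv v * X.2 i₀ := by
    intro v
    let u : ∀ i, Matrix (Ix (g i)) (Ix (g i)) ℂ :=
      Function.update (fun i => (1 : Matrix (Ix (g i)) (Ix (g i)) ℂ)) i₀ (1 + nv v)
    have hu0 : u i₀ = 1 + nv v := Function.update_self _ _ _
    have hu1 : ∀ i, i ≠ i₀ → u i = 1 := fun i hi => Function.update_of_ne hi _ _
    let a : Pt g := (1, u)
    have ha : InG w a := by
      refine ⟨one_ne_zero, fun i => ?_⟩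
      show Simil ((1 : ℂ) ^ w i) (u i)
      rw [one_pow]
      by_cases hi : i = i₀
      · subst hi
        rw [hu0]
        exact simil_nv v
      · rw [hu1 i hi]
        exact simil_one _
    have h4 : u i₀ * X.2 i₀ = X.2 i₀ * u i₀ := commG a ha
    rw [hu0, add_mul, mul_add, one_mul, mul_one] at h4
    exact (add_left_cancel h4).symm
  obtain ⟨x, hx⟩ := scalar_of_comm (X.2 i₀) commN
  refine ⟨(fun k : Pt g => k.2 i₀) '' H1 (H2 w T H), ⟨fin1.image _, ⟨1, g1.one, rfl⟩, ?_, ?_⟩, ?_⟩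
  · rintro _ ⟨a, ha, rfl⟩ _ ⟨b, hb, rfl⟩
    exact ⟨a * b, g1.mul a ha b hb, rfl⟩
  · rintro _ ⟨a, ha, rfl⟩
    obtain ⟨b, hb, e1, e2⟩ := g1.inv a ha
    exact ⟨b.2 i₀, ⟨b, hb, rfl⟩, congrFun (congrArg Prod.snd e1) i₀,
      congrFun (congrArg Prod.snd e2) i₀⟩
  · intro h hh
    obtain ⟨h', hh', e1, e2⟩ := norm h hh
    have hne : h.1 ≠ 0 := (hG.sub h hh).1
    obtain ⟨t, ht⟩ : ∃ t : ℂ, Complex.exp (t * X.1) = h.1⁻¹ := by
      refine ⟨-Complex.log h.1 / X.1, ?_⟩
      rw [div_mul_cancel₀ _ hX1, Complex.exp_neg, Complex.exp_log hne]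
    have hk : h' * ex t X ∈ H1 (H2 w T H) := by
      refine ⟨g2.mul _ hh' _ (hX t), ?_⟩
      show h'.1 * Complex.exp (t * X.1) = 1
      rw [e1, ht, mul_inv_cancel₀ hne]
    refine ⟨(Complex.exp (t * x))⁻¹, inv_ne_zero (Complex.exp_ne_zero _), _,
      ⟨h' * ex t X, hk, rfl⟩, ?_⟩
    show h.2 i₀ = (Complex.exp (t * x))⁻¹ • (h'.2 i₀ * NormedSpace.exp (t • X.2 i₀))
    rw [hx, smul_smul, exp_smul_one, e2 i₀ hi₀, Matrix.mul_smul, mul_one, smul_smul,
      inv_mul_cancel₀ (Complex.exp_ne_zero _), one_smul]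

end Pool.Agent.UBD
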