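import Pool.Agent.UBD.Stmts
import Pool.Agent.HGP.GENB

/-!
# UBD, module SPG: the symplectic group is generated by the transvections
-/

set_option autoImplicit false

open scoped BigOperators

namespace Pool.Agent.UBD

open Pool.Agent.HGP (Ix Simil)

theorem spg_proof : Stmt_SPG := by
  intro k M hM
  have h := HGP.genb_proof k M hM
  refine (Submonoid.closure_le.mpr ?_) h
  rintro N ⟨v, c, rfl⟩
  exact Submonoid.subset_closure ⟨v, c, rfl⟩

end Pool.Agent.UBD
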