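import Pool.Agent.UBD.Stmts

set_option autoImplicit false

/-!
# UBD: assembly of the uniform bound
-/

open scoped BigOperators

namespace Pool.Agent.UBD

open Pool.Agent.HGP (Ix Simil)

noncomputable section

namespace UB_

variable {r : ℕ} {g w : Fin r → ℕ}

theorem dns_mono {D D' : ℕ} (h : D ≤ D') {H : Set (Pt g)} (hH : Dns D' w H) : Dns D w H :=
  fun P hP => hH P (hP.trans h)

end UB_

open UB_ in
/-- The uniform bound. -/
theorem ub_proof (hLIEA : Stmt_LIEA) (hADJ : Stmt_ADJ) (hADG : Stmt_ADG) (hTRL : Stmt_TRL)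
    (hFUL : Stmt_FUL) (hCLO : Stmt_CLO) (hRED : Stmt_RED) (hLAST : Stmt_LAST) : Stmt_UB := by
  intro r g w hg
  choose D hD using fun i => hLAST r g w i (hg i)
  refine ⟨(2 + ∑ i, w i) + 1 + ∑ i, D i, ?_⟩
  intro H hH hinf hdns
  have hd1 : Dns (2 + ∑ i, w i) w H := dns_mono (by omega) hdns
  have hd2 : Dns 1 w H := dns_mono (by omega) hdns
  -- the full factors
  let T : Set (Fin r) := {i | ∃ X ∈ Lie H, X.1 = 0 ∧ X.2 i ≠ 0}
  have hT : ∀ i ∈ T, ∀ v : Ix (g i) → ℂ, sg1 i (nv v) ∈ Lie H := by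
    rintro i ⟨X, hX, hX1, hXi⟩ v
    have hW := hTRL r g w {X | X ∈ Lie H ∧ X.1 = 0} ?_ ?_ X ⟨hX, hX1⟩ hX1 ?_ i hXi v
    · exact hW.1
    · rintro X ⟨hX, hX1⟩ Y ⟨hY, hY1⟩ c
      refine ⟨hLIEA r g w H hH X hX Y hY c, ?_⟩
      show X.1 + c • Y.1 = 0
      rw [hX1, hY1, smul_zero, add_zero]
    · rintro X ⟨hX, hX1⟩ a b ha hab
      refine ⟨hADG r g w H hH hd1 X hX hX1 a b ha hab, ?_⟩
      show a.1 * X.1 * b.1 = 0
      rw [hX1, mul_zero, zero_mul]
    · intro j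
      have h1 := (hADJ r g w H hH).2.1 X hX j
      rw [hX1, mul_zero, zero_smul] at h1
      exact h1
  have hT' : ∀ X ∈ Lie H, X.1 = 0 → ∀ i, i ∉ T → X.2 i = 0 := by
    intro X hX hX1 i hi
    by_contra hne
    exact hi ⟨X, hX, hX1, hne⟩
  by_cases hall : ∀ i, i ∈ T
  · refine hCLO r g w H hH hinf fun a ha1 has => ?_
    exact hFUL r g w H hH T hT a ha1 has fun i hi => absurd (hall i) hi
  · push Not at hall
    obtain ⟨i₀, hi₀⟩ := hall
    obtain ⟨S, hS, hHS⟩ := hRED r g w H hH hd2 hinf T hT hT' i₀ hi₀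
    refine absurd (dns_mono ?_ hdns) (hD i₀ H hH.sub S hS hHS)
    have : D i₀ ≤ ∑ i, D i := Finset.single_le_sum (f := D) (fun _ _ => Nat.zero_le _)
      (Finset.mem_univ i₀)
    omega

end

end Pool.Agent.UBD
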