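import Pool.Agent.UBD.Stmts

set_option autoImplicit false

/-!
# UBD, module UNC: countable algebraic sets are finite
-/

open scoped BigOperators

namespace Pool.Agent.UBD

namespace UNC_

open MvPolynomial

noncomputable section

/-- A linearly independent family of polynomials is countable. -/
theorem countable_of_indep {τ ι : Type} [Fintype τ] (u : ι → MvPolynomial τ ℂ)
    (h : LinearIndependent ℂ u) : Countable ι := by
  have h1 := h.cardinal_le_rank
  have h2 : Module.rank ℂ (MvPolynomial τ ℂ) = Cardinal.mk (τ →₀ ℕ) := by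
    have := (MvPolynomial.basisMonomials τ ℂ).mk_eq_rank
    simpa using this.symm
  rw [h2] at h1
  have h3 : Cardinal.mk (τ →₀ ℕ) ≤ Cardinal.aleph0 := Cardinal.mk_le_aleph0
  exact Cardinal.mk_le_aleph0_iff.mp (h1.trans h3)

/-- The inverse of `x i - a` on a closed set on which the coordinate omits the value `a`. -/
theorem exists_inv {τ : Type} [Fintype τ] (I : Ideal (MvPolynomial τ ℂ)) (i : τ) (a : ℂ)
    (h : ∀ x : τ → ℂ, (∀ P ∈ I, eval x P = 0) → x i ≠ a) :
    ∃ u : MvPolynomial τ ℂ, ∀ x : τ → ℂ, (∀ P ∈ I, eval x P = 0) →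
      eval x u * (x i - a) = 1 := by
  have h1 : zeroLocus ℂ (I ⊔ Ideal.span {(X i - C a : MvPolynomial τ ℂ)}) = ∅ := by
    rw [Set.eq_empty_iff_forall_notMem]
    intro x hx
    have hx' : ∀ P ∈ (I ⊔ Ideal.span {(X i - C a : MvPolynomial τ ℂ)}), eval x P = 0 := by
      intro P hP
      have h0 := hx P hP
      rw [MvPolynomial.aeval_eq_eval] at h0
      exact h0
    refine h x (fun P hP => hx' P (Ideal.mem_sup_left hP)) ?_
    have := hx' (X i - C a) (Ideal.mem_sup_right (Ideal.mem_span_singleton_self _))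
    simp only [map_sub, eval_X, eval_C] at this
    exact sub_eq_zero.mp this
  have h2 := vanishingIdeal_zeroLocus_eq_radical (K := ℂ)
    (I ⊔ Ideal.span {(X i - C a : MvPolynomial τ ℂ)})
  rw [h1, vanishingIdeal_empty] at h2
  have h3 : (I ⊔ Ideal.span {(X i - C a : MvPolynomial τ ℂ)}) = ⊤ :=
    Ideal.radical_eq_top.mp h2.symm
  have h4 : (1 : MvPolynomial τ ℂ) ∈ I ⊔ Ideal.span {(X i - C a : MvPolynomial τ ℂ)} := by
    rw [h3]
    exact Submodule.mem_top
  obtain ⟨p, hp, s, hs, hps⟩ := Submodule.mem_sup.mp h4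
  obtain ⟨u, hu⟩ := Ideal.mem_span_singleton'.mp hs
  refine ⟨u, fun x hx => ?_⟩
  have h5 := congrArg (eval x) hps
  rw [map_add, hx p hp, ← hu, zero_add, map_mul, map_one, map_sub, eval_X, eval_C] at h5
  exact h5

/-- The fractions `1 / (t - a)` are linearly independent on an infinite set. -/
theorem indep_fractions (s : Finset ℂ) (c : ℂ → ℂ) (T : Set ℂ) (hT : T.Infinite)
    (hs : ∀ a ∈ s, a ∉ T) (h : ∀ t ∈ T, ∑ a ∈ s, c a * (t - a)⁻¹ = 0) :
    ∀ a ∈ s, c a = 0 := by
  classical
  set F : Polynomial ℂ := ∑ a ∈ s, Polynomial.C (c a) *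
    ∏ b ∈ s.erase a, (Polynomial.X - Polynomial.C b) with hF
  have hev : ∀ t, F.eval t = ∑ a ∈ s, c a * ∏ b ∈ s.erase a, (t - b) := by
    intro t
    simp [hF, Polynomial.eval_finsetSum, Polynomial.eval_prod]
  have hF0 : F = 0 := by
    refine Polynomial.eq_zero_of_infinite_isRoot F (hT.mono ?_)
    intro t ht
    show F.eval t = 0
    have hne : ∀ a ∈ s, t - a ≠ 0 := by
      intro a ha h0
      exact hs a ha (by rwa [← sub_eq_zero.mp h0])
    have h1 : F.eval t = (∏ b ∈ s, (t - b)) * ∑ a ∈ s, c a * (t - a)⁻¹ := by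
      rw [hev, Finset.mul_sum]
      refine Finset.sum_congr rfl fun a ha => ?_
      rw [← Finset.mul_prod_erase s _ ha]
      have := hne a ha
      field_simp
    rw [h1, h t ht, mul_zero]
  intro a ha
  have h1 := hev a
  rw [hF0, Polynomial.eval_zero, Finset.sum_eq_single a] at h1
  · have h2 : ∏ b ∈ s.erase a, (a - b) ≠ 0 := by
      rw [Finset.prod_ne_zero_iff]
      intro b hb
      exact sub_ne_zero.mpr (Finset.ne_of_mem_erase hb).symm
    rcases mul_eq_zero.mp h1.symm with h3 | h3
    · exact h3
    · exact absurd h3 h2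
  · intro b _ hba
    rw [Finset.prod_eq_zero (i := a) (Finset.mem_erase.mpr ⟨fun h => hba h.symm, ha⟩) (by simp),
      mul_zero]
  · intro h2
    exact absurd ha h2

/-- The theorem for closed sets. -/
theorem closed_case {τ : Type} [Fintype τ] (I : Ideal (MvPolynomial τ ℂ))
    (h : {x : τ → ℂ | ∀ P ∈ I, eval x P = 0}.Countable) :
    {x : τ → ℂ | ∀ P ∈ I, eval x P = 0}.Finite := by
  classical
  by_contra hinf
  set V := {x : τ → ℂ | ∀ P ∈ I, eval x P = 0} with hV
  have h1 : ∃ i, ((fun x : τ → ℂ => x i) '' V).Infinite := by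
    by_contra hcon
    push Not at hcon
    apply hinf
    have h2 : (Set.univ.pi fun i => (fun x : τ → ℂ => x i) '' V).Finite :=
      Set.Finite.pi fun i => by simpa using hcon i
    refine h2.subset fun x hx i _ => ⟨x, hx, rfl⟩
  obtain ⟨i, hi⟩ := h1
  set T := (fun x : τ → ℂ => x i) '' V with hT
  have hTc : T.Countable := h.image _
  have hex : ∀ a : (Tᶜ : Set ℂ), ∃ u : MvPolynomial τ ℂ, ∀ x : τ → ℂ,
      (∀ P ∈ I, eval x P = 0) → eval x u * (x i - a) = 1 := fun a =>
    exists_inv I i a fun x hx hxa => a.2 ⟨x, hx, hxa⟩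
  choose u hu using hex
  have hind : LinearIndependent ℂ u := by
    rw [linearIndependent_iff']
    intro s c hc a ha
    have key := indep_fractions (s.map ⟨Subtype.val, Subtype.val_injective⟩)
      (fun z => if hz : z ∈ Tᶜ then c ⟨z, hz⟩ else 0) T hi ?_ ?_ a
      (Finset.mem_map.mpr ⟨a, ha, rfl⟩)
    · have h2 := a.2
      simp only [h2, dif_pos] at key
      exact key
    · intro b hb
      obtain ⟨b', _, rfl⟩ := Finset.mem_map.mp hb
      exact b'.2
    · rintro t ⟨x, hx, rfl⟩
      rw [Finset.sum_map]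
      have h3 := congrArg (eval x) hc
      rw [map_sum, map_zero] at h3
      rw [← h3]
      refine Finset.sum_congr rfl fun b _ => ?_
      have h4 := hu b x hx
      have h5 : (x i - b : ℂ) ≠ 0 := by
        intro h0
        rw [h0, mul_zero] at h4
        exact zero_ne_one h4
      have h6 : eval x (u b) = (x i - b : ℂ)⁻¹ := by
        field_simp
        exact h4
      have h7 := b.2
      simp only [Function.Embedding.coeFn_mk, h7, dif_pos, MvPolynomial.smul_eval, h6]
  have hcount := countable_of_indep u hind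
  have h8 : (Tᶜ : Set ℂ).Countable := hcount
  exact not_countable_complex (by
    rw [← Set.union_compl_self T]
    exact hTc.union h8)

end

end UNC_

open MvPolynomial in
theorem unc_proof : Stmt_UNC := by
  intro σ _ I q hc
  classical
  set V := {x : σ → ℂ | (∀ P ∈ I, eval x P = 0) ∧ eval x q ≠ 0} with hV
  set J : Ideal (MvPolynomial (Option σ) ℂ) :=
    Ideal.span ((fun P => rename some P) '' I ∪ {X none * rename some q - 1}) with hJ
  have hmem : ∀ y : Option σ → ℂ, (∀ P ∈ J, eval y P = 0) ↔
      ((∀ P ∈ I, eval (fun i => y (some i)) P = 0) ∧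
        y none * eval (fun i => y (some i)) q = 1) := by
    intro y
    constructor
    · intro h
      refine ⟨fun P hP => ?_, ?_⟩
      · have := h (rename some P) (Ideal.subset_span (Or.inl ⟨P, hP, rfl⟩))
        rw [eval_rename] at this
        exact this
      · have := h (X none * rename some q - 1) (Ideal.subset_span (Or.inr rfl))
        rw [map_sub, map_mul, eval_X, eval_rename, map_one] at this
        exact sub_eq_zero.mp this
    · rintro ⟨h1, h2⟩ P hP
      have hle : J ≤ RingHom.ker (eval y) := by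
        rw [hJ, Ideal.span_le]
        rintro Q (⟨R, hR, rfl⟩ | hQ)
        · show eval y (rename some R) = 0
          rw [eval_rename]
          exact h1 R hR
        · rw [Set.mem_singleton_iff] at hQ
          subst hQ
          show eval y (X none * rename some q - 1) = 0
          rw [map_sub, map_mul, eval_X, eval_rename, map_one]
          exact sub_eq_zero.mpr h2
      exact hle hP
  have himg : {y : Option σ → ℂ | ∀ P ∈ J, eval y P = 0} =
      (fun x : σ → ℂ => (fun o : Option σ => o.elim (eval x q)⁻¹ x)) '' V := by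
    ext y
    rw [Set.mem_ofPred_eq, hmem]
    constructor
    · rintro ⟨h1, h2⟩
      have hne : eval (fun i => y (some i)) q ≠ 0 := by
        intro h0
        rw [h0, mul_zero] at h2
        exact zero_ne_one h2
      refine ⟨fun i => y (some i), ⟨h1, hne⟩, ?_⟩
      funext o
      cases o with
      | none =>
        show (eval (fun i => y (some i)) q)⁻¹ = y none
        exact (eq_inv_of_mul_eq_one_left h2).symm
      | some i => rfl
    · rintro ⟨x, ⟨h1, h2⟩, rfl⟩
      exact ⟨h1, inv_mul_cancel₀ h2⟩
  have hfin := UNC_.closed_case J (by rw [himg]; exact hc.image _)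
  have h9 : V ⊆ (fun (y : Option σ → ℂ) (i : σ) => y (some i)) ''
      {y : Option σ → ℂ | ∀ P ∈ J, eval y P = 0} := by
    intro x hx
    rw [himg]
    exact ⟨_, ⟨x, hx, rfl⟩, rfl⟩
  exact (hfin.image _).subset h9

end Pool.Agent.UBD
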