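import Pool.Agent.UBD.LIEA
import Pool.Agent.UBD.ADJ
import Pool.Agent.UBD.UNC
import Pool.Agent.UBD.ONEP
import Pool.Agent.UBD.LIEB
import Pool.Agent.UBD.JOR
import Pool.Agent.UBD.SPG
import Pool.Agent.UBD.IRR
import Pool.Agent.UBD.ADG
import Pool.Agent.UBD.TRL
import Pool.Agent.UBD.FUL
import Pool.Agent.UBD.CLO
import Pool.Agent.UBD.RED
import Pool.Agent.UBD.LAST
import Pool.Agent.UBD.UB

set_option autoImplicit false

/-!
# UBD: the uniform bound, assembled
-/

namespace Pool.Agent.UBD

/-- The uniform bound: for all `g i > 0` and weights `w i` there is `D` such that every Zariski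
closed subgroup of `G` with infinitely many multipliers, which is dense in degree `D`, is `G`. -/
theorem ub : Stmt_UB := ub_proof liea_proof adj_proof (adg_proof liea_proof adj_proof)
  trl_proof (ful_proof spg_proof) clo_proof
  (red_proof (lieb_proof unc_proof onep_proof) adj_proof (ful_proof spg_proof))
  (last_proof jor_proof irr_proof)

end Pool.Agent.UBD
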