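import Pool.Agent.UBD.Defs

set_option autoImplicit false

/-!
# UBD: exact statements of the modules
-/

open scoped BigOperators

namespace Pool.Agent.UBD

open Pool.Agent.HGP (Ix Simil)

noncomputable section

/-! ## Lie algebras -/

/-- LIEA: the Lie algebra is a complex subspace. -/
def Stmt_LIEA : Prop := ∀ (r : ℕ) (g w : Fin r → ℕ) (H : Set (Pt g)), GrpS w H →
  ∀ X ∈ Lie H, ∀ Y ∈ Lie H, ∀ c : ℂ, X + c • Y ∈ Lie H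

/-- ADJ: conjugation, derivatives at `0`. -/
def Stmt_ADJ : Prop := ∀ (r : ℕ) (g w : Fin r → ℕ) (H : Set (Pt g)), GrpS w H →
  (∀ X ∈ Lie H, ∀ a ∈ H, ∀ b, a * b = 1 → b * a = 1 → a * X * b ∈ Lie H) ∧
  (∀ X ∈ Lie H, ∀ i, (X.2 i).transpose * Matrix.J (Fin (g i)) ℂ +
    Matrix.J (Fin (g i)) ℂ * X.2 i = ((w i : ℂ) * X.1) • Matrix.J (Fin (g i)) ℂ) ∧
  ∀ X a : Pt g, (∀ t, a * ex t X = ex t X * a) → a * X = X * a

/-- UNC: countable algebraic sets are finite. -/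
def Stmt_UNC : Prop := ∀ (σ : Type) [Fintype σ] (I : Set (MvPolynomial σ ℂ))
  (q : MvPolynomial σ ℂ),
  {x : σ → ℂ | (∀ P ∈ I, MvPolynomial.eval x P = 0) ∧ MvPolynomial.eval x q ≠ 0}.Countable →
  {x : σ → ℂ | (∀ P ∈ I, MvPolynomial.eval x P = 0) ∧ MvPolynomial.eval x q ≠ 0}.Finite

/-- ONEP: a multiplicative set which accumulates at `1` has a one-parameter group in its
closure. -/
def Stmt_ONEP : Prop := ∀ (A : Type) [NormedRing A] [NormedAlgebra ℂ A]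
  [FiniteDimensional ℂ A] (H : Set A), 1 ∈ H → (∀ a ∈ H, ∀ b ∈ H, a * b ∈ H) →
  (∀ ε : ℝ, 0 < ε → ∃ h ∈ H, h ≠ 1 ∧ ‖h - 1‖ < ε) →
  ∃ X : A, X ≠ 0 ∧ ∀ t : ℝ, 0 ≤ t → NormedSpace.exp ((t : ℂ) • X) ∈ closure H

/-- LIEB: an infinite closed subgroup has a Lie algebra different from `0`. -/
def Stmt_LIEB : Prop := ∀ (r : ℕ) (g w : Fin r → ℕ) (H : Set (Pt g)), GrpS w H → ¬ H.Finite →
  ∃ X ∈ Lie H, X ≠ 0

/-! ## Finite groups -/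

/-- JOR: a form of the theorem of Jordan. -/
def Stmt_JOR : Prop := ∀ (m : Type) [Fintype m] [DecidableEq m], ∃ J : ℕ,
  ∀ S : Set (Matrix m m ℂ), FinG S → (∃ s ∈ S, ∀ c : ℂ, s ≠ c • (1 : Matrix m m ℂ)) →
  ∃ s ∈ S, (∀ c : ℂ, s ≠ c • (1 : Matrix m m ℂ)) ∧ ∃ F : Finset (Matrix m m ℂ), F.card ≤ J ∧
    ∀ h ∈ S, ∃ t ∈ F, h * s = t * h

/-! ## The group `G` -/

/-- SPG: the symplectic group is generated by the transvections. -/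
def Stmt_SPG : Prop := ∀ (k : ℕ) (M : Matrix (Ix k) (Ix k) ℂ), Simil 1 M →
  M ∈ Submonoid.closure {N : Matrix (Ix k) (Ix k) ℂ | ∃ (v : Ix k → ℂ) (c : ℂ),
    N = 1 + c • nv v}

/-- IRR: `G` is irreducible. -/
def Stmt_IRR : Prop := ∀ (r : ℕ) (g w : Fin r → ℕ) (m : ℕ) (P : Fin m → Pol g),
  (∀ j, ∃ a, InG w a ∧ ev (P j) a ≠ 0) → ∃ a, InG w a ∧ ∀ j, ev (P j) a ≠ 0

/-- ADG: density in a bounded degree implies that the Lie algebra is stable under `G`. -/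
def Stmt_ADG : Prop := ∀ (r : ℕ) (g w : Fin r → ℕ) (H : Set (Pt g)), GrpS w H →
  Dns (2 + ∑ i, w i) w H → ∀ X ∈ Lie H, X.1 = 0 → ∀ a b, InG w a → a * b = 1 →
    a * X * b ∈ Lie H

/-- TRL: stable subspaces contain the directions of the transvections. -/
def Stmt_TRL : Prop := ∀ (r : ℕ) (g w : Fin r → ℕ) (W : Set (Pt g)),
  (∀ X ∈ W, ∀ Y ∈ W, ∀ c : ℂ, X + c • Y ∈ W) →
  (∀ X ∈ W, ∀ a b, InG w a → a * b = 1 → a * X * b ∈ W) → ∀ X ∈ W, X.1 = 0 →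
  (∀ i, (X.2 i).transpose * Matrix.J (Fin (g i)) ℂ + Matrix.J (Fin (g i)) ℂ * X.2 i = 0) →
  ∀ i, X.2 i ≠ 0 → ∀ v : Ix (g i) → ℂ, sg1 i (nv v) ∈ W

/-- FUL: full factors. -/
def Stmt_FUL : Prop := ∀ (r : ℕ) (g w : Fin r → ℕ) (H : Set (Pt g)), GrpS w H →
  ∀ T : Set (Fin r), (∀ i ∈ T, ∀ v : Ix (g i) → ℂ, sg1 i (nv v) ∈ Lie H) →
  ∀ a : Pt g, a.1 = 1 → (∀ i, Simil 1 (a.2 i)) → (∀ i, i ∉ T → a.2 i = 1) → a ∈ H

/-- CLO: the end of the proof if all factors are full. -/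
def Stmt_CLO : Prop := ∀ (r : ℕ) (g w : Fin r → ℕ) (H : Set (Pt g)), GrpS w H → Inf1 H →
  (∀ a : Pt g, a.1 = 1 → (∀ i, Simil 1 (a.2 i)) → a ∈ H) → ∀ a, InG w a → a ∈ H

/-- RED: if a factor is not full, the component is a finite group up to scalars. -/
def Stmt_RED : Prop := ∀ (r : ℕ) (g w : Fin r → ℕ) (H : Set (Pt g)), GrpS w H → Dns 1 w H →
  Inf1 H → ∀ T : Set (Fin r), (∀ i ∈ T, ∀ v : Ix (g i) → ℂ, sg1 i (nv v) ∈ Lie H) →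
  (∀ X ∈ Lie H, X.1 = 0 → ∀ i, i ∉ T → X.2 i = 0) → ∀ i₀, i₀ ∉ T →
  ∃ S : Set (Matrix (Ix (g i₀)) (Ix (g i₀)) ℂ), FinG S ∧
    ∀ h ∈ H, ∃ z : ℂ, z ≠ 0 ∧ ∃ s ∈ S, h.2 i₀ = z • s

/-- LAST: a component which is finite up to scalars contradicts the density. -/
def Stmt_LAST : Prop := ∀ (r : ℕ) (g w : Fin r → ℕ) (i₀ : Fin r), 0 < g i₀ → ∃ D : ℕ,
  ∀ H : Set (Pt g), (∀ h ∈ H, InG w h) → ∀ S : Set (Matrix (Ix (g i₀)) (Ix (g i₀)) ℂ),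
  FinG S → (∀ h ∈ H, ∃ z : ℂ, z ≠ 0 ∧ ∃ s ∈ S, h.2 i₀ = z • s) → ¬ Dns D w H

/-- UB: the uniform bound. -/
def Stmt_UB : Prop := ∀ (r : ℕ) (g w : Fin r → ℕ), (∀ i, 0 < g i) → ∃ D : ℕ,
  ∀ H : Set (Pt g), GrpS w H → Inf1 H → Dns D w H → ∀ a, InG w a → a ∈ H

end

end Pool.Agent.UBD
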