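import Pool.Agent.HGP.Stmts

set_option autoImplicit false

/-!
# UBD: a uniform bound for subgroups of products of groups of symplectic similitudes

`G` is the group of all `(mu, h_1, ..., h_r)`, where `h_i` is a symplectic similitude of rank
`2 g i` with multiplier `mu ^ w i`. There is `D`, depending only on the `g i` and `w i`, such that
every Zariski closed subgroup `H` of `G` on which `mu` takes infinitely many values, and which
cannot be distinguished from `G` by polynomials of degree at most `D`, is equal to `G`.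

Text: /team-store/MP_470b79_UBD.md
-/

open scoped BigOperators

namespace Pool.Agent.UBD

open Pool.Agent.HGP (Ix Simil)

noncomputable section

variable {r : ℕ} {g : Fin r → ℕ}

/-- A number and a family of square matrices (a ring). -/
abbrev Pt (g : Fin r → ℕ) : Type := ℂ × (∀ i, Matrix (Ix (g i)) (Ix (g i)) ℂ)

/-- The index set of the coordinates. -/
abbrev Crd (g : Fin r → ℕ) : Type := Option (Σ i : Fin r, Ix (g i) × Ix (g i))

/-- Polynomials in the coordinates. -/
abbrev Pol (g : Fin r → ℕ) : Type := MvPolynomial (Crd g) ℂ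

/-- The value of a polynomial. -/
def ev (P : Pol g) (a : Pt g) : ℂ := MvPolynomial.eval (HGP.tpt a.1 a.2) P

/-- The group `G` with weights `w`. -/
def InG (w : Fin r → ℕ) (a : Pt g) : Prop := a.1 ≠ 0 ∧ ∀ i, Simil (a.1 ^ w i) (a.2 i)

/-- `H` is a Zariski closed subgroup of `G`. -/
structure GrpS (w : Fin r → ℕ) (H : Set (Pt g)) : Prop where
  sub : ∀ a ∈ H, InG w a
  one : 1 ∈ H
  mul : ∀ a ∈ H, ∀ b ∈ H, a * b ∈ H
  inv : ∀ a ∈ H, ∃ b ∈ H, a * b = 1 ∧ b * a = 1
  closed : ∀ a, InG w a → (∀ P : Pol g, (∀ h ∈ H, ev P h = 0) → ev P a = 0) → a ∈ H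

/-- `H` is dense in `G` in degree `D`. -/
def Dns (D : ℕ) (w : Fin r → ℕ) (H : Set (Pt g)) : Prop := ∀ P : Pol g, P.totalDegree ≤ D →
  (∀ h ∈ H, ev P h = 0) → ∀ a, InG w a → ev P a = 0

/-- The one-parameter group with direction `X`. -/
def ex (t : ℂ) (X : Pt g) : Pt g :=
  (Complex.exp (t * X.1), fun i => NormedSpace.exp (t • X.2 i))

/-- The Lie algebra of `H`. -/
def Lie (H : Set (Pt g)) : Set (Pt g) := {X | ∀ t : ℂ, ex t X ∈ H}

/-- The nilpotent matrix `x ↦ ⟨J v, x⟩ v`. -/
def nv {k : ℕ} (v : Ix k → ℂ) : Matrix (Ix k) (Ix k) ℂ :=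
  Matrix.vecMulVec v ((Matrix.J (Fin k) ℂ).mulVec v)

/-- The point with only one component. -/
def sg1 (i : Fin r) (M : Matrix (Ix (g i)) (Ix (g i)) ℂ) : Pt g := (0, Pi.single i M)

/-- The values of `mu` on `H` are infinite in number. -/
def Inf1 (H : Set (Pt g)) : Prop := {x : ℂ | ∃ h ∈ H, h.1 = x}.Infinite

/-- `S` is a finite group of matrices. -/
structure FinG {m : Type} [Fintype m] [DecidableEq m] (S : Set (Matrix m m ℂ)) : Prop where
  fin : S.Finite
  one : 1 ∈ S
  mul : ∀ a ∈ S, ∀ b ∈ S, a * b ∈ S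
  inv : ∀ a ∈ S, ∃ b ∈ S, a * b = 1 ∧ b * a = 1

end

end Pool.Agent.UBD
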